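import Pool.Agent.Helper18.BV.St

/-! # Project BV, module BV-10: Vaughan's identity and coefficient facts -/

set_option autoImplicit false

open Finset
open scoped ArithmeticFunction.vonMangoldt ArithmeticFunction.Moebius ArithmeticFunction.zeta

namespace Pool.Agent.Helper18.BV

theorem lo_add_hi (U : ℕ) (f : ArithmeticFunction ℂ) : lo U f + hi U f = f := by
  ext n
  rw [ArithmeticFunction.add_apply, lo_apply, hi_apply]
  split_ifs <;> simp

theorem vaughanId : VaughanId := by
  intro U V a m L h1 h2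
  have hm : hi U m = m - lo U m := eq_sub_of_add_eq' (lo_add_hi U m)
  have hL : hi V L = L - lo V L := eq_sub_of_add_eq' (lo_add_hi V L)
  rw [hm, hL, ← h2]
  linear_combination (lo V L - L) * h1

theorem zeC_apply {n : ℕ} (hn : n ≠ 0) : zeC n = 1 := by
  unfold zeC
  rw [ArithmeticFunction.natCoe_apply, ArithmeticFunction.zeta_apply_ne hn, Nat.cast_one]

theorem zeC_mul_LaC : zeC * LaC = D zeC := by
  ext n
  rcases Nat.eq_zero_or_pos n with rfl | hn
  · simp
  rw [D_apply, zeC_apply hn.ne', one_mul, ArithmeticFunction.mul_apply]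
  have h1 : ∀ x ∈ n.divisorsAntidiagonal, zeC x.1 * LaC x.2 = ((Λ x.2 : ℝ) : ℂ) := by
    intro x hx
    have : x.1 ≠ 0 := (Nat.ne_zero_of_mem_divisorsAntidiagonal hx).1
    rw [zeC_apply this, one_mul, LaC_apply]
  rw [Finset.sum_congr rfl h1]
  rw [Nat.sum_divisorsAntidiagonal' (f := fun _ j => ((Λ j : ℝ) : ℂ))]
  rw [← ArithmeticFunction.vonMangoldt_sum]
  push_cast
  rfl

theorem norm_muC_le (n : ℕ) : ‖muC n‖ ≤ 1 := by
  unfold muC
  rw [ArithmeticFunction.intCoe_apply, Complex.norm_intCast]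
  exact_mod_cast ArithmeticFunction.abs_moebius_le_one

/-- sums of `Λ` over the divisors in an antidiagonal -/
theorem norm_conv_le {f g : ArithmeticFunction ℂ} (hf : ∀ n, ‖f n‖ ≤ 1)
    (hg : ∀ n, ‖g n‖ ≤ Λ n) (n : ℕ) : ‖(f * g) n‖ ≤ Real.log n := by
  rw [ArithmeticFunction.mul_apply]
  calc ‖∑ x ∈ n.divisorsAntidiagonal, f x.1 * g x.2‖
      ≤ ∑ x ∈ n.divisorsAntidiagonal, Λ x.2 := by
        refine (norm_sum_le _ _).trans (Finset.sum_le_sum ?_)
        intro x _
        rw [norm_mul]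
        calc ‖f x.1‖ * ‖g x.2‖ ≤ 1 * Λ x.2 :=
              mul_le_mul (hf _) (hg _) (norm_nonneg _) zero_le_one
          _ = Λ x.2 := one_mul _
    _ = Real.log n := by
        rw [Nat.sum_divisorsAntidiagonal' (f := fun _ j => Λ j)]
        exact ArithmeticFunction.vonMangoldt_sum

theorem norm_LaC (n : ℕ) : ‖LaC n‖ = Λ n := by
  rw [LaC_apply, Complex.norm_real, Real.norm_eq_abs,
    abs_of_nonneg ArithmeticFunction.vonMangoldt_nonneg]

theorem norm_lo_le (U : ℕ) (f : ArithmeticFunction ℂ) (n : ℕ) : ‖lo U f n‖ ≤ ‖f n‖ := by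
  rw [lo_apply]; split_ifs
  · exact le_rfl
  · simp

theorem norm_hi_le (U : ℕ) (f : ArithmeticFunction ℂ) (n : ℕ) : ‖hi U f n‖ ≤ ‖f n‖ := by
  rw [hi_apply]; split_ifs
  · simp
  · exact le_rfl

theorem norm_zeC_le (n : ℕ) : ‖zeC n‖ ≤ 1 := by
  rcases Nat.eq_zero_or_pos n with rfl | hn
  · simp
  · rw [zeC_apply hn.ne']; simp

theorem coefFacts : CoefFacts where
  inv := ArithmeticFunction.coe_zeta_mul_coe_moebius
  log := zeC_mul_LaC
  mu_le := norm_muC_le
  lo_mul_lo_le := fun U V n => norm_conv_le (fun n => (norm_lo_le U _ n).trans (norm_muC_le n))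
    (fun n => (norm_lo_le V _ n).trans (norm_LaC n).le) n
  lo_mul_lo_zero := by
    intro U V n hn
    rw [ArithmeticFunction.mul_apply]
    apply Finset.sum_eq_zero
    intro x hx
    rw [lo_apply, lo_apply]
    have hxn := (Nat.mem_divisorsAntidiagonal.1 hx).1
    by_cases h1 : x.1 ≤ U
    · by_cases h2 : x.2 ≤ V
      · exfalso
        have := Nat.mul_le_mul h1 h2
        omega
      · simp [h2]
    · simp [h1]
  hi_mul_le := by
    intro V n
    rw [mul_comm]
    exact norm_conv_le norm_zeC_le (fun n => (norm_hi_le V _ n).trans (norm_LaC n).le) n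
  hi_mul_zero := by
    intro V n hn
    rw [ArithmeticFunction.mul_apply]
    apply Finset.sum_eq_zero
    intro x hx
    obtain ⟨hxn, hn0⟩ := Nat.mem_divisorsAntidiagonal.1 hx
    have hle : x.1 ≤ V := by
      have := Nat.le_of_dvd (Nat.pos_of_ne_zero hn0) (Dvd.intro x.2 hxn)
      omega
    rw [hi_apply]
    simp [hle]

end Pool.Agent.Helper18.BV
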