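import Pool.Agent.Helper18.BV.Defs

/-!
# Project BV (MP_265190_nt): statements of the modules

Target: all but `O(log x)` primes `a ≤ x` are the least primitive root of infinitely many primes.
Every module proves one of the propositions below, taking other propositions as hypotheses.
-/

set_option autoImplicit false

open Finset Filter Topology
open scoped ArithmeticFunction.vonMangoldt ArithmeticFunction.Moebius ArithmeticFunction.zeta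

namespace Pool.Agent.Helper18.BV

/-! ### Part A: L-functions near `s = 1` -/

/-- A1a: trivial bound in `Re s > 0`. -/
def LBound : Prop :=
  ∀ (q : ℕ) [NeZero q] (χ : DirichletCharacter ℂ q), χ ≠ 1 → ∀ s : ℂ, 0 < s.re →
    ‖DirichletCharacter.LFunction χ s‖ ≤ q * ‖s‖ / s.re

/-- A1b: bounds near `s = 1`. -/
def LUpper : Prop :=
  ∀ ε : ℝ, 0 < ε → ∃ r C : ℝ, 0 < r ∧ r ≤ 1 / 4 ∧ 0 < C ∧
    ∀ (q : ℕ) [NeZero q] (χ : DirichletCharacter ℂ q), χ ≠ 1 → ∀ s : ℂ, ‖s - 1‖ ≤ r →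
      ‖DirichletCharacter.LFunction χ s‖ ≤ C * (q : ℝ) ^ ε ∧
      ‖deriv (DirichletCharacter.LFunction χ) s‖ ≤ C * (q : ℝ) ^ ε

/-- A2: lower bound for `L(1, χ)`, complex characters. -/
def LComplex : Prop :=
  ∀ ε : ℝ, 0 < ε → ∃ c : ℝ, 0 < c ∧
    ∀ (q : ℕ) [NeZero q] (χ : DirichletCharacter ℂ q), χ ^ 2 ≠ 1 →
      c * (q : ℝ) ^ (-ε) ≤ ‖DirichletCharacter.LFunction χ 1‖

/-- A3: Estermann's lemma. -/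
def Estermann : Prop :=
  ∃ c K : ℝ, 0 < c ∧ 0 < K ∧ ∀ (f G : ℂ → ℂ) (lam B β : ℝ),
    (∀ m : ℕ, 0 ≤ ((-1 : ℂ) ^ m * iteratedDeriv m f 2).re) → 1 ≤ (f 2).re → 1 ≤ B →
    (∀ s : ℂ, 1 < s.re → f s = lam / (s - 1) + G s) →
    DifferentiableOn ℂ G (Metric.ball 2 (3 / 2)) →
    (∀ s : ℂ, ‖s - 2‖ = 4 / 3 → ‖G s‖ ≤ B) →
    9 / 10 ≤ β → β < 1 → (G β).re ≤ lam / (1 - β) →
    c * (1 - β) * B ^ (-(K * (1 - β))) ≤ lam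

/-- A4: the derivatives at `2` of `ζ(s) L(s, χ₁) L(s, χ₂) L(s, χ₁χ₂)` alternate. -/
def AltProd : Prop :=
  ∀ (q₁ q₂ q₃ : ℕ) [NeZero q₁] [NeZero q₂] [NeZero q₃] (χ₁ : DirichletCharacter ℂ q₁)
    (χ₂ : DirichletCharacter ℂ q₂) (χ₃ : DirichletCharacter ℂ q₃),
    χ₁ ^ 2 = 1 → χ₂ ^ 2 = 1 →
    (∀ n : ℕ, χ₃ (n : ZMod q₃) = χ₁ (n : ZMod q₁) * χ₂ (n : ZMod q₂)) →
    (∀ m : ℕ, 0 ≤ ((-1 : ℂ) ^ m * iteratedDeriv m (fun s => riemannZeta s *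
      DirichletCharacter.LFunction χ₁ s * DirichletCharacter.LFunction χ₂ s *
      DirichletCharacter.LFunction χ₃ s) 2).re) ∧
    1 ≤ (riemannZeta 2 * DirichletCharacter.LFunction χ₁ 2 * DirichletCharacter.LFunction χ₂ 2 *
      DirichletCharacter.LFunction χ₃ 2).re

/-- A4': the same for `ζ(s) L(s, χ)`. -/
def AltOne : Prop :=
  ∀ (q : ℕ) [NeZero q] (χ : DirichletCharacter ℂ q), χ ^ 2 = 1 →
    (∀ m : ℕ, 0 ≤ ((-1 : ℂ) ^ m * iteratedDeriv m (fun s => riemannZeta s *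
      DirichletCharacter.LFunction χ s) 2).re) ∧
    1 ≤ (riemannZeta 2 * DirichletCharacter.LFunction χ 2).re

/-- A5: Siegel's lower bound for real primitive characters. -/
def SiegelReal : Prop :=
  ∀ ε : ℝ, 0 < ε → ∃ c : ℝ, 0 < c ∧
    ∀ (q : ℕ) [NeZero q] (χ : DirichletCharacter ℂ q), χ.IsPrimitive → χ ≠ 1 → χ ^ 2 = 1 →
      c * (q : ℝ) ^ (-ε) ≤ ‖DirichletCharacter.LFunction χ 1‖

/-- A6: Fourier representation of test functions. -/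
def FourierRep : Prop :=
  ∀ g : ℝ → ℝ, ContDiff ℝ (⊤ : ℕ∞) g → HasCompactSupport g →
    ∃ h : ℝ → ℂ, Continuous h ∧
      (∀ N : ℕ, MeasureTheory.Integrable (fun t : ℝ => (1 + |t|) ^ N * ‖h t‖)) ∧
      ∀ v : ℝ, (g v : ℂ) = ∫ t : ℝ, h t * Complex.exp (t * v * Complex.I)

/-- A7: the derivatives of `L'/L` near `s = 1` for small conductors. -/
def NearOne : Prop :=
  ∀ (B : ℝ) (k : ℕ), 0 < B → ∃ C X0 : ℝ, 0 < C ∧ 3 ≤ X0 ∧ ∀ x : ℝ, X0 ≤ x →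
    ∀ (q : ℕ) [NeZero q], 1 < q → (q : ℝ) ≤ Real.log x ^ B → ∀ χ ∈ prim q, ∀ s : ℂ,
      ‖s - 1‖ ≤ Real.log x ^ (-(1 / 2) : ℝ) →
      ‖iteratedDeriv k (fun z => deriv (DirichletCharacter.LFunction χ) z /
        DirichletCharacter.LFunction χ z) s‖ ≤ C * Real.log x ^ (((k : ℝ) + 1) / 2)

/-- The von Mangoldt function with complex values. -/
noncomputable def LaC : ArithmeticFunction ℂ := ⟨fun n => ((Λ n : ℝ) : ℂ), by simp⟩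

/-- The Möbius function with complex values. -/
noncomputable def muC : ArithmeticFunction ℂ := ((μ : ArithmeticFunction ℤ) : ArithmeticFunction ℂ)

/-- The constant function `1`. -/
noncomputable def zeC : ArithmeticFunction ℂ := ((ζ : ArithmeticFunction ℕ) : ArithmeticFunction ℂ)

theorem LaC_apply (n : ℕ) : LaC n = ((Λ n : ℝ) : ℂ) := rfl

/-- A8: prime number theorem for primitive characters of small conductor. -/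
def Small : Prop :=
  ∀ g : ℝ → ℝ, IsWt g → ∀ A B : ℝ, 0 < A → 0 < B → ∃ C X0 : ℝ, 0 < C ∧ 3 ≤ X0 ∧
    ∀ x : ℝ, X0 ≤ x → ∀ q : ℕ, 1 < q → (q : ℝ) ≤ Real.log x ^ B → ∀ χ ∈ prim q,
      ‖SS LaC g x χ‖ ≤ C / Real.log x ^ A

/-! ### Part B: the large sieve and Vaughan's identity -/

/-- B1: large sieve with logarithmic weights (weak form). -/
def TLS : Prop :=
  ∀ (Q U N : ℕ), 1 ≤ Q → Q ^ 4 ≤ U → U ≤ N → ∀ α : ℕ → ℂ,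
    ∑ q ∈ Icc 1 Q, ∑ χ ∈ prim q, ‖∑ m ∈ Ioc U N, α m * χ (m : ZMod q) / m‖ ^ 2 ≤
      (Real.log N + 2) * ∑ m ∈ Ioc U N, ‖α m‖ ^ 2 / m

/-- B2a: Vaughan's identity. -/
def VaughanId : Prop :=
  ∀ (U V : ℕ) (a m L : ArithmeticFunction ℂ), a * m = 1 → a * L = D a →
    L = lo V L + lo U m * D a - lo U m * lo V L * a + hi U m * (hi V L * a)

/-- B2b: facts on `Λ`, `μ`. -/
structure CoefFacts : Prop where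
  inv : zeC * muC = 1
  log : zeC * LaC = D zeC
  mu_le : ∀ n : ℕ, ‖muC n‖ ≤ 1
  lo_mul_lo_le : ∀ (U V n : ℕ), ‖(lo U muC * lo V LaC) n‖ ≤ Real.log n
  lo_mul_lo_zero : ∀ (U V n : ℕ), U * V < n → (lo U muC * lo V LaC) n = 0
  hi_mul_le : ∀ (V n : ℕ), ‖(hi V LaC * zeC) n‖ ≤ Real.log n
  hi_mul_zero : ∀ (V n : ℕ), n ≤ V → (hi V LaC * zeC) n = 0

/-- B3: Type I sums. -/
def TypeOne : Prop :=
  ∀ g : ℝ → ℝ, IsWt g → ∃ C : ℝ, 0 < C ∧ ∀ x : ℝ, 3 ≤ x →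
    ∀ (q : ℕ) [NeZero q] (χ : DirichletCharacter ℂ q), χ ≠ 1 →
    ∀ (M : ℕ) (c : ArithmeticFunction ℂ) (Kc : ℝ), (∀ m ≤ M, ‖c m‖ ≤ Kc) →
      (∀ m, M < m → c m = 0) →
      ‖SS (c * zeC : ArithmeticFunction ℂ) g x χ‖ ≤
        C * q * M * Kc * Real.log x * x ^ (-(1 / 2) : ℝ) ∧
      ‖SS (c * D zeC : ArithmeticFunction ℂ) g x χ‖ ≤
        C * q * M * Kc * Real.log x * x ^ (-(1 / 2) : ℝ)

/-- B4: Type II sums on average over primitive characters. -/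
def TypeTwo : Prop :=
  ∀ g : ℝ → ℝ, IsWt g → ∃ C : ℝ, 0 < C ∧ ∀ x : ℝ, 3 ≤ x → ∀ Q U V : ℕ, 1 ≤ Q → Q ^ 4 ≤ U →
    Q ^ 4 ≤ V → ∀ a b : ArithmeticFunction ℂ, (∀ n ≤ U, a n = 0) → (∀ n ≤ V, b n = 0) →
      (∀ n, ‖a n‖ ≤ 1) → (∀ n : ℕ, (n : ℝ) ≤ x → ‖b n‖ ≤ Real.log x) →
      ∑ q ∈ Icc 1 Q, ∑ χ ∈ prim q, ‖SS (a * b : ArithmeticFunction ℂ) g x χ‖ ≤
        C * Real.log x ^ 3

/-- B5: primitive characters of large conductor on average. -/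
def Large : Prop :=
  ∀ g : ℝ → ℝ, IsWt g → ∀ A : ℝ, 0 < A → ∃ B C X0 : ℝ, 0 < B ∧ 0 < C ∧ 3 ≤ X0 ∧
    ∀ x : ℝ, X0 ≤ x →
      ∑ q ∈ Ioc ⌊Real.log x ^ B⌋₊ ⌊x ^ (1 / 40 : ℝ)⌋₊,
        (1 / (q.totient : ℝ)) * ∑ χ ∈ prim q, ‖SS LaC g x χ‖ ≤ C / Real.log x ^ A

/-- B6: primes in one residue class for every modulus up to `x ^ (1/40)`, on average. -/
def BVav : Prop :=
  ∀ g : ℝ → ℝ, IsWt g → ∀ A : ℝ, 0 < A → ∃ C X0 : ℝ, 0 < C ∧ 3 ≤ X0 ∧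
    ∀ x : ℝ, X0 ≤ x → ∀ c : ℕ → ℕ, (∀ d, Nat.Coprime (c d) d) →
      ∑ d ∈ Icc 1 ⌊x ^ (1 / 40 : ℝ)⌋₊,
        |∑ n ∈ (Icc 1 ⌊x⌋₊).filter (fun n => n ≡ c d [MOD d]), Λ n * wt g x n -
          (1 / (d.totient : ℝ)) * ∑ n ∈ Icc 1 ⌊x⌋₊, Λ n * wt g x n| ≤ C / Real.log x ^ A

/-! ### Part C: primes `p` such that `p - 1` has no small odd prime factor -/

/-- C1: the total mass. -/
def Mass : Prop :=
  ∀ g : ℝ → ℝ, IsWt g → (∃ v, g v ≠ 0) → ∃ c C X0 : ℝ, 0 < c ∧ 0 < C ∧ 3 ≤ X0 ∧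
    ∀ x : ℝ, X0 ≤ x → c * Real.log x ≤ ∑ n ∈ Icc 1 ⌊x⌋₊, Λ n * wt g x n ∧
      ∑ n ∈ Icc 1 ⌊x⌋₊, Λ n * wt g x n ≤ C * Real.log x

/-- C2: weighted Brun-Hooley sieve for the densities `1 / (q - 1)`, with error terms on average. -/
def SieveW : Prop :=
  ∃ K c : ℝ, 1 ≤ K ∧ 0 < c ∧ ∀ (α : Type) (P : ℕ → Prop), (∀ q, P q → q.Prime ∧ 3 ≤ q) →
    ∀ w : ℝ, 2 ≤ w → ∀ (Ω : Finset α) (W : α → ℝ) (occ : ℕ → α → Prop) (X R : ℝ) (r : ℕ → ℝ),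
    (∀ ω ∈ Ω, 0 ≤ W ω) → 0 ≤ X → (∀ d, 0 ≤ r d) →
    (∀ I : Finset ℕ, (∀ q ∈ I, P q ∧ (q : ℝ) ≤ w) → ((∏ q ∈ I, q : ℕ) : ℝ) ≤ w ^ K →
      ∀ E : Finset α, (∀ ω, ω ∈ E ↔ ω ∈ Ω ∧ ∀ q ∈ I, occ q ω) →
      |∑ ω ∈ E, W ω - X * ∏ q ∈ I, (1 / ((q : ℝ) - 1))| ≤ r (∏ q ∈ I, q)) →
    ∑ d ∈ Icc 1 ⌊w ^ K⌋₊, r d ≤ R →
    ∀ E : Finset α, (∀ ω, ω ∈ E ↔ ω ∈ Ω ∧ ∀ q : ℕ, P q → (q : ℝ) ≤ w → ¬ occ q ω) →
      c * X / Real.log w - K * Real.log w * R ≤ ∑ ω ∈ E, W ω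

/-- C3: special primes. -/
def Special : Prop :=
  ∃ α : ℝ, 0 < α ∧ α < 1 / 2 ∧ ∀ v u : ℕ, 0 < v → u.Coprime v → u % 8 = 7 → 8 ∣ v →
    (∀ r : ℕ, r.Prime → r ≠ 2 → r ∣ v → u % r ≠ 1) →
    ∀ g : ℝ → ℝ, IsWt g → (∃ y, g y ≠ 0) → ∃ c X0 : ℝ, 0 < c ∧ 3 ≤ X0 ∧ ∀ x : ℝ, X0 ≤ x →
      ∀ E : Finset ℕ, (∀ p : ℕ, p ∈ E ↔ (p.Prime ∧ (p : ℝ) ≤ x ∧ p ≡ u [MOD v] ∧
        ∀ r : ℕ, r.Prime → r ∣ p - 1 → r = 2 ∨ x ^ α < (r : ℝ))) →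
      c ≤ ∑ p ∈ E, Real.log p * wt g x p

/-! ### Part D: arithmetic of the least primitive root -/

/-- D1: few primes modulo which several independent integers have small order. -/
def RankLemma : Prop :=
  ∀ (h : ℕ) (b : Fin h → ℕ), 0 < h → (∀ i, 2 ≤ b i) →
    (∀ e : Fin h → ℤ, ∏ i, ((b i : ℕ) : ℚ) ^ e i = 1 → e = 0) →
    ∃ C : ℝ, 0 < C ∧ ∀ y : ℝ, 1 ≤ y → ∀ S : Finset ℕ,
      (∀ p ∈ S, p.Prime ∧ (∀ i, ¬ p ∣ b i) ∧ ∃ k : ℕ, 0 < k ∧ (k : ℝ) ≤ y ∧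
        ∀ i, ((b i : ℕ) : ZMod p) ^ k = 1) →
      (S.card : ℝ) ≤ C * y ^ (1 + 1 / (h : ℝ))

/-- The parity of the number of prime factors in `T` (with multiplicity). -/
def odd (T : Finset ℕ) (n : ℕ) : Prop := Odd (∑ q ∈ T, n.factorization q)

/-- D2: prescribed quadratic characters of the small primes. -/
def Pattern : Prop :=
  ∀ (T : Finset ℕ) (w : ℕ), (∀ q ∈ T, q.Prime ∧ 5 ≤ q ∧ q ≤ w) → ∃ v u : ℕ,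
    0 < v ∧ u.Coprime v ∧ u % 8 = 7 ∧ 8 ∣ v ∧
    (∀ r : ℕ, r.Prime → r ≠ 2 → r ∣ v → u % r ≠ 1) ∧
    ∀ p : ℕ, p.Prime → p ≡ u [MOD v] → w < p → ∀ n : ℕ, 1 ≤ n → n ≤ w →
      (IsSquare ((n : ℕ) : ZMod p) ↔ ¬ odd T n)

/-- `a` is the least primitive root of many primes: of more than `y ^ (1 - ε)` primes `p ≤ y`, for
arbitrarily large `y`. -/
def Good (a : ℕ) : Prop :=
  ∀ ε : ℝ, 0 < ε → ∀ y0 : ℝ, ∃ y : ℝ, y0 ≤ y ∧ ∃ S : Finset ℕ,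
    (∀ p ∈ S, LeastRoot a p ∧ (p : ℝ) ≤ y) ∧ y ^ (1 - ε) ≤ (S.card : ℝ)

/-- E1: the main theorem in general form. -/
def Main : Prop :=
  ∃ k : ℕ, 0 < k ∧ ∀ (T : Finset ℕ) (X : ℕ), (∀ q ∈ T, q.Prime ∧ 5 ≤ q) → ∀ b : Fin k → ℕ,
    (∀ i, 2 ≤ b i ∧ b i ≤ X ∧ odd T (b i)) →
    (∀ e : Fin k → ℤ, ∏ i, ((b i : ℕ) : ℚ) ^ e i = 1 → e = 0) →
    ∃ a : ℕ, a ≤ X ∧ odd T a ∧ Good a

end Pool.Agent.Helper18.BV
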