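import Pool.Agent.Helper18.BV.EstermannLemma
import Pool.Agent.Helper18.BV.Vaughan
import Pool.Agent.Helper85.BV.LUpper
import Pool.Agent.Helper30.BV.LComplex
import Pool.Agent.Helper79.BV.Alt
import Pool.Agent.Helper37.BV.SiegelReal
import Pool.Agent.Helper46.BV.FourierRep
import Pool.Agent.Helper79.BV.Near
import Pool.Agent.Helper81.BV.Small
import Pool.Agent.Helper96.BV.TLS
import Pool.Agent.Helper44.BV.TypeOne
import Pool.Agent.Helper96.BV.TypeTwo
import Pool.Agent.Helper96.BV.Large
import Pool.Agent.Helper51.BV.Average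

/-!
# Project BV: the Bombieri-Vinogradov theorem
-/

set_option autoImplicit false

namespace Pool.Agent.Helper18.BV

/-- The Bombieri-Vinogradov theorem in the form used here (averages over moduli `d ≤ x ^ (1/40)`). -/
theorem bv : BVav := by
  have hB := Pool.Agent.Helper85.BV.lBound
  have hU := Pool.Agent.Helper85.BV.lUpper
  have hC := Pool.Agent.Helper30.BV.lComplex hU
  have hE := Pool.Agent.Helper18.BV.estermann
  have hAP := Pool.Agent.Helper79.BV.altProd
  have hAO := Pool.Agent.Helper79.BV.altOne
  have hSi := Pool.Agent.Helper37.BV.siegelReal hB hU hE hAP hAO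
  have hF := Pool.Agent.Helper46.BV.fourierRep
  have hN := Pool.Agent.Helper79.BV.nearOne hU hC hSi
  have hS := Pool.Agent.Helper81.BV.small hN hF
  have hT2 := Pool.Agent.Helper96.BV.typeTwo Pool.Agent.Helper96.BV.tls hF
  have hL := Pool.Agent.Helper96.BV.large Pool.Agent.Helper18.BV.vaughanId
    Pool.Agent.Helper18.BV.coefFacts Pool.Agent.Helper44.BV.typeOne hT2
  exact Pool.Agent.Helper51.BV.bvav hS hL

end Pool.Agent.Helper18.BV
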