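import Mathlib

/-!
# Project BV: definitions

Primes in arithmetic progressions to large moduli on average, with smooth logarithmic weights.
-/

set_option autoImplicit false

open Finset

namespace Pool.Agent.Helper18.BV

/-- Admissible weight functions: smooth, nonnegative, supported inside `(1/2, 1)`. -/
structure IsWt (g : ℝ → ℝ) : Prop where
  smooth : ContDiff ℝ (⊤ : ℕ∞) g
  supp : tsupport g ⊆ Set.Ioo (1 / 2) 1
  nonneg : ∀ v, 0 ≤ g v

/-- The weight `g (log n / log x) / n`. -/
noncomputable def wt (g : ℝ → ℝ) (x : ℝ) (n : ℕ) : ℝ := g (Real.log n / Real.log x) / n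

/-- The primitive characters modulo `q`. -/
noncomputable def prim (q : ℕ) : Finset (DirichletCharacter ℂ q) := by
  classical exact Finset.univ.filter (fun χ => χ.IsPrimitive)

theorem mem_prim {q : ℕ} {χ : DirichletCharacter ℂ q} : χ ∈ prim q ↔ χ.IsPrimitive := by
  classical
  unfold prim
  simp

/-- The sum `∑_{n ≤ x} f(n) χ(n) w(n)`. -/
noncomputable def SS (f : ℕ → ℂ) (g : ℝ → ℝ) (x : ℝ) {q : ℕ} (χ : DirichletCharacter ℂ q) : ℂ :=
  ∑ n ∈ Icc 1 ⌊x⌋₊, f n * χ (n : ZMod q) * (wt g x n : ℂ)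

/-- The part of an arithmetic function on `n ≤ U`. -/
noncomputable def lo (U : ℕ) (f : ArithmeticFunction ℂ) : ArithmeticFunction ℂ :=
  ⟨fun n => if n ≤ U then f n else 0, by simp⟩

/-- The part of an arithmetic function on `n > U`. -/
noncomputable def hi (U : ℕ) (f : ArithmeticFunction ℂ) : ArithmeticFunction ℂ :=
  ⟨fun n => if n ≤ U then 0 else f n, by simp⟩

/-- The function `f(n) log n`. -/
noncomputable def D (f : ArithmeticFunction ℂ) : ArithmeticFunction ℂ :=
  ⟨fun n => f n * (Real.log n : ℂ), by simp⟩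

theorem lo_apply (U : ℕ) (f : ArithmeticFunction ℂ) (n : ℕ) :
    lo U f n = if n ≤ U then f n else 0 := rfl

theorem hi_apply (U : ℕ) (f : ArithmeticFunction ℂ) (n : ℕ) :
    hi U f n = if n ≤ U then 0 else f n := rfl

theorem D_apply (f : ArithmeticFunction ℂ) (n : ℕ) : D f n = f n * (Real.log n : ℂ) := rfl

/-- `p` is a prime whose least positive primitive root is `a`. -/
def LeastRoot (a p : ℕ) : Prop :=
  p.Prime ∧ orderOf ((a : ZMod p)) = p - 1 ∧
    ∀ g : ℕ, 1 ≤ g → g < a → orderOf ((g : ZMod p)) ≠ p - 1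

end Pool.Agent.Helper18.BV
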