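import Pool.Agent.Helper18.BV.St

/-!
# Project BV: assembly

`Special`, `RankLemma` and `Pattern` imply the main theorem.
-/

set_option autoImplicit false

open Finset Filter Topology

namespace Pool.Agent.Helper18.BV

/-- `a` is the least primitive root of at most `y ^ (1 - ε)` primes up to `y`, for `y ≥ y0`. -/
def Few (a : ℕ) (ε y0 : ℝ) : Prop :=
  ∀ y : ℝ, y0 ≤ y → ∀ S : Finset ℕ, (∀ p ∈ S, LeastRoot a p ∧ (p : ℝ) ≤ y) →
    (S.card : ℝ) < y ^ (1 - ε)

theorem few_mono {a : ℕ} {ε ε' y0 y0' : ℝ} (h : Few a ε y0) (hε : ε' ≤ ε) (hy : y0 ≤ y0')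
    (h1 : 1 ≤ y0') : Few a ε' y0' := by
  intro y hy' S hS
  refine (h y (hy.trans hy') S hS).trans_le ?_
  exact Real.rpow_le_rpow_of_exponent_le (h1.trans hy') (by linarith)

theorem not_good {a : ℕ} (h : ¬ Good a) : ∃ ε y0 : ℝ, 0 < ε ∧ Few a ε y0 := by
  unfold Good at h
  push Not at h
  obtain ⟨ε, hε, y0, hy⟩ := h
  exact ⟨ε, y0, hε, fun y hy' S hS => hy y hy' S hS⟩

/-- uniform constants for a finite set of `a` -/
theorem few_uniform (A : Finset ℕ) (h : ∀ a ∈ A, ¬ Good a) :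
    ∃ ε y0 : ℝ, 0 < ε ∧ ε ≤ 1 / 4 ∧ 1 ≤ y0 ∧ ∀ a ∈ A, Few a ε y0 := by
  classical
  induction A using Finset.induction_on with
  | empty => exact ⟨1 / 4, 1, by norm_num, le_rfl, le_rfl, by simp⟩
  | insert a A ha ih =>
    obtain ⟨ε, y0, hε, hε1, hy0, hA⟩ := ih (fun b hb => h b (Finset.mem_insert_of_mem hb))
    obtain ⟨ε', y0', hε', hF⟩ := not_good (h a (Finset.mem_insert_self a A))
    refine ⟨min ε ε', max y0 y0', lt_min hε hε', (min_le_left _ _).trans hε1,
      hy0.trans (le_max_left _ _), ?_⟩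
    intro b hb
    rcases Finset.mem_insert.1 hb with rfl | hb
    · exact few_mono hF (min_le_right _ _) (le_max_right _ _) (hy0.trans (le_max_left _ _))
    · exact few_mono (hA b hb) (min_le_left _ _) (le_max_left _ _) (hy0.trans (le_max_left _ _))

/-- a weight function supported close to `1` -/
theorem exists_wt {τ : ℝ} (h0 : 0 < τ) (h1 : τ ≤ 1 / 2) : ∃ g : ℝ → ℝ, IsWt g ∧ (∃ y, g y ≠ 0) ∧
    (∀ y, g y ≤ 1) ∧ ∀ y, y ≤ 1 - τ → g y = 0 := by
  obtain ⟨g, hg1, hg2, hg3, hg4, hg5⟩ := exists_contDiff_tsupport_subset (n := (⊤ : ℕ∞))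
    (s := Set.Ioo (1 - τ) 1) (x := 1 - τ / 2) (Ioo_mem_nhds (by linarith) (by linarith))
  have hr : ∀ y, g y ∈ Set.Icc (0:ℝ) 1 := fun y => hg4 (Set.mem_range_self y)
  refine ⟨g, ⟨hg3, hg1.trans (Set.Ioo_subset_Ioo_left (by linarith)), fun v => (hr v).1⟩,
    ⟨1 - τ / 2, by rw [hg5]; norm_num⟩, fun y => (hr y).2, ?_⟩
  intro y hy
  by_contra hne
  have := hg1 (subset_tsupport g (Function.mem_support.2 hne))
  exact absurd this.1 (not_lt.2 hy)

/-- number of large prime factors -/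
theorem card_large {α x : ℝ} (hα : 0 < α) (hx : 1 < x) {n : ℕ} (hn : 0 < n) (hnx : (n : ℝ) < x)
    (R : Finset ℕ) (hR : ∀ r ∈ R, r.Prime ∧ r ∣ n ∧ x ^ α < (r : ℝ)) :
    R.card ≤ ⌊1 / α⌋₊ := by
  rw [Nat.le_floor_iff (by positivity), le_div_iff₀ hα]
  have hdvd : ∏ r ∈ R, r ∣ n := by
    apply Finset.prod_primes_dvd n (fun r hr => (hR r hr).1.prime) (fun r hr => (hR r hr).2.1)
  have hle : ∏ r ∈ R, (r : ℝ) ≤ n := by
    have := Nat.le_of_dvd hn hdvd
    calc ∏ r ∈ R, (r : ℝ) = ((∏ r ∈ R, r : ℕ) : ℝ) := by push_cast; rfl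
      _ ≤ n := by exact_mod_cast this
  have hx0 : 0 < x := by linarith
  have h1 : (x ^ α) ^ R.card ≤ ∏ r ∈ R, (r : ℝ) := by
    rw [← Finset.prod_const]
    exact Finset.prod_le_prod (fun _ _ => (Real.rpow_pos_of_pos hx0 _).le)
      (fun r hr => (hR r hr).2.2.le)
  have h2 : x ^ (α * R.card) < x ^ (1 : ℝ) := by
    rw [Real.rpow_mul hx0.le, Real.rpow_natCast, Real.rpow_one]
    exact (h1.trans hle).trans_lt hnx
  have h3 := (Real.rpow_lt_rpow_left_iff hx).1 h2
  linarith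

/-- if `b` is not a primitive root modulo `p`, it is an `r`-th power residue for a prime `r` -/
theorem exists_prime_of_not_root {p : ℕ} (hp : p.Prime) {b : ℕ} (hb : ¬ p ∣ b)
    (hnr : orderOf ((b : ZMod p)) ≠ p - 1) :
    ∃ r : ℕ, r.Prime ∧ r ∣ p - 1 ∧ ((b : ZMod p)) ^ ((p - 1) / r) = 1 := by
  haveI := Fact.mk hp
  by_contra hcon
  push Not at hcon
  apply hnr
  have hb0 : (b : ZMod p) ≠ 0 := by
    rwa [Ne, ZMod.natCast_eq_zero_iff]
  exact orderOf_eq_of_pow_and_pow_div_prime (by have := hp.two_le; omega)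
    (ZMod.pow_card_sub_one_eq_one hb0) (fun r hr hrd => hcon r hr hrd)

/-- a square is not a primitive root -/
theorem not_root_of_square {p : ℕ} (hp : p.Prime) (h2 : 2 < p) {b : ℕ} (hb : ¬ p ∣ b)
    (hs : IsSquare ((b : ZMod p))) : orderOf ((b : ZMod p)) ≠ p - 1 := by
  haveI := Fact.mk hp
  intro h
  have hb0 : (b : ZMod p) ≠ 0 := by rwa [Ne, ZMod.natCast_eq_zero_iff]
  have h1 := (ZMod.euler_criterion p hb0).1 hs
  have h3 := orderOf_dvd_of_pow_eq_one h1
  rw [h] at h3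
  have h4 := Nat.le_of_dvd (by omega) h3
  have := hp.two_le
  omega

/-- the least primitive root of `p` is at most any primitive root -/
theorem exists_least {p b : ℕ} (hp : p.Prime) (hb : 1 ≤ b)
    (h : orderOf ((b : ZMod p)) = p - 1) : ∃ a : ℕ, 1 ≤ a ∧ a ≤ b ∧ LeastRoot a p := by
  classical
  have hex : ∃ a : ℕ, 1 ≤ a ∧ orderOf ((a : ZMod p)) = p - 1 := ⟨b, hb, h⟩
  refine ⟨Nat.find hex, (Nat.find_spec hex).1, Nat.find_min' hex ⟨hb, h⟩, hp,
    (Nat.find_spec hex).2, ?_⟩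
  intro g hg1 hg2 hg3
  exact Nat.find_min hex hg2 ⟨hg1, hg3⟩

/-- independence passes to subfamilies -/
theorem indep_sub {k h : ℕ} {b : Fin k → ℕ}
    (hind : ∀ e : Fin k → ℤ, ∏ i, ((b i : ℕ) : ℚ) ^ e i = 1 → e = 0) (J : Fin h ↪ Fin k) :
    ∀ e : Fin h → ℤ, ∏ i, ((b (J i) : ℕ) : ℚ) ^ e i = 1 → e = 0 := by
  classical
  intro e he
  set e' : Fin k → ℤ := fun j => if hj : ∃ i, J i = j then e hj.choose else 0 with he'
  have hJ : ∀ i, e' (J i) = e i := by
    intro i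
    have hex : ∃ i', J i' = J i := ⟨i, rfl⟩
    simp only [he', hex, dif_pos]
    congr 1
    exact J.injective hex.choose_spec
  have h0 : ∀ j, (¬ ∃ i, J i = j) → e' j = 0 := by
    intro j hj
    simp only [he', hj, dif_neg, not_false_eq_true]
  have hprod : ∏ j, ((b j : ℕ) : ℚ) ^ e' j = 1 := by
    rw [← he]
    symm
    calc ∏ i, ((b (J i) : ℕ) : ℚ) ^ e i = ∏ i, ((b (J i) : ℕ) : ℚ) ^ e' (J i) := by
          apply Finset.prod_congr rfl; intro i _; rw [hJ]
      _ = ∏ j ∈ (Finset.univ : Finset (Fin h)).map J, ((b j : ℕ) : ℚ) ^ e' j := by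
          rw [Finset.prod_map]
      _ = ∏ j, ((b j : ℕ) : ℚ) ^ e' j := by
          apply Finset.prod_subset (Finset.subset_univ _)
          intro j _ hj
          rw [h0 j, zpow_zero]
          rintro ⟨i, rfl⟩
          exact hj (Finset.mem_map_of_mem J (Finset.mem_univ i))
  have := hind e' hprod
  funext i
  rw [← hJ i, this]
  rfl

/-- the dichotomy for one special prime -/
theorem cover {α x : ℝ} (hα : 0 < α) (hx : 1 < x) {k h X : ℕ} (hk : k = (⌊1 / α⌋₊ + 1) * h)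
    (hh : 0 < h) {T : Finset ℕ} {b : Fin k → ℕ} (hb : ∀ i, 2 ≤ b i ∧ b i ≤ X ∧ odd T (b i))
    {p : ℕ} (hp : p.Prime) (hpx : (p : ℝ) ≤ x) (hXp : X < p)
    (hsq : ∀ n : ℕ, 1 ≤ n → n ≤ X → (IsSquare ((n : ℕ) : ZMod p) ↔ ¬ odd T n))
    (hr : ∀ r : ℕ, r.Prime → r ∣ p - 1 → r = 2 ∨ x ^ α < (r : ℝ)) :
    (∃ a : ℕ, a ≤ X ∧ odd T a ∧ LeastRoot a p) ∨
      ∃ J : Fin h ↪ Fin k, ∃ m : ℕ, 0 < m ∧ (m : ℝ) ≤ x ^ (1 - α) ∧
        ∀ i, ((b (J i) : ℕ) : ZMod p) ^ m = 1 := by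
  classical
  haveI := Fact.mk hp
  have hkpos : 0 < k := by rw [hk]; positivity
  have hp2 : 2 < p := by
    have := hb ⟨0, hkpos⟩
    omega
  have hndvd : ∀ i, ¬ p ∣ b i := by
    intro i hdvd
    have := Nat.le_of_dvd (by have := (hb i).1; omega) hdvd
    have := (hb i).2.1
    omega
  by_cases hroot : ∃ i, orderOf (((b i : ℕ) : ZMod p)) = p - 1
  · left
    obtain ⟨i, hi⟩ := hroot
    obtain ⟨a, ha1, ha2, ha3⟩ := exists_least hp (by have := (hb i).1; omega) hi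
    refine ⟨a, ha2.trans (hb i).2.1, ?_, ha3⟩
    by_contra hodd
    have hsq' := (hsq a ha1 (ha2.trans (hb i).2.1)).2 hodd
    have hnd : ¬ p ∣ a := by
      intro hdvd
      have := Nat.le_of_dvd (by omega) hdvd
      have := (hb i).2.1
      omega
    exact not_root_of_square hp hp2 hnd hsq' ha3.2.1
  · right
    push Not at hroot
    have hex : ∀ i, ∃ r : ℕ, r.Prime ∧ r ∣ p - 1 ∧ (((b i : ℕ) : ZMod p)) ^ ((p - 1) / r) = 1 :=
      fun i => exists_prime_of_not_root hp (hndvd i) (hroot i)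
    choose rf hrp hrd hrb using hex
    have hrne : ∀ i, rf i ≠ 2 := by
      intro i h2
      have h1 := hrb i
      rw [h2] at h1
      have hb0 : ((b i : ℕ) : ZMod p) ≠ 0 := by
        rw [Ne, ZMod.natCast_eq_zero_iff]; exact hndvd i
      have hodd := hp.eq_two_or_odd'
      have hp' : (p - 1) / 2 = p / 2 := by
        rcases hodd with h | h
        · omega
        · obtain ⟨m, hm⟩ := h; omega
      rw [hp'] at h1
      have h3 := (ZMod.euler_criterion p hb0).2 h1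
      exact ((hsq (b i) (by have := (hb i).1; omega) (hb i).2.1).1 h3) (hb i).2.2
    have hrl : ∀ i, x ^ α < (rf i : ℝ) := fun i =>
      (hr (rf i) (hrp i) (hrd i)).resolve_left (hrne i)
    set R : Finset ℕ := Finset.univ.image rf with hR
    have hRcard : R.card ≤ ⌊1 / α⌋₊ := by
      apply card_large hα hx (n := p - 1) (by omega) _ R
      · intro r hr'
        obtain ⟨i, _, rfl⟩ := Finset.mem_image.1 hr'
        exact ⟨hrp i, hrd i, hrl i⟩
      · have : ((p - 1 : ℕ) : ℝ) < p := by exact_mod_cast Nat.sub_lt (by omega) one_pos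
        linarith
    have hRne : R.Nonempty := ⟨rf ⟨0, hkpos⟩, Finset.mem_image_of_mem rf (Finset.mem_univ _)⟩
    obtain ⟨r, hrR, hcard⟩ := Finset.exists_le_card_fiber_of_mul_le_card_of_maps_to
      (s := (Finset.univ : Finset (Fin k))) (t := R) (f := rf) (n := h)
      (fun i _ => Finset.mem_image_of_mem rf (Finset.mem_univ i)) hRne (by
        rw [Finset.card_univ, Fintype.card_fin, hk]
        exact Nat.mul_le_mul_right h (hRcard.trans (Nat.le_succ _)))
    obtain ⟨s, hs, hsc⟩ := Finset.exists_subset_card_eq hcard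
    refine ⟨(s.orderEmbOfFin hsc).toEmbedding, (p - 1) / r, ?_, ?_, ?_⟩
    · obtain ⟨i, _, hi⟩ := Finset.mem_image.1 hrR
      have h1 : r ∣ p - 1 := hi ▸ hrd i
      exact Nat.div_pos (Nat.le_of_dvd (by omega) h1) (by rw [← hi]; exact (hrp i).pos)
    · obtain ⟨i, _, hi⟩ := Finset.mem_image.1 hrR
      have h1 : x ^ α < (r : ℝ) := hi ▸ hrl i
      have hx0 : 0 < x := by linarith
      have h2 : 0 < x ^ α := Real.rpow_pos_of_pos hx0 _
      have h3 : (((p - 1) / r : ℕ) : ℝ) ≤ ((p - 1 : ℕ) : ℝ) / r := Nat.cast_div_le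
      have h4 : ((p - 1 : ℕ) : ℝ) ≤ x := by
        have : ((p - 1 : ℕ) : ℝ) ≤ p := by exact_mod_cast Nat.sub_le _ _
        linarith
      calc (((p - 1) / r : ℕ) : ℝ) ≤ ((p - 1 : ℕ) : ℝ) / r := h3
        _ ≤ x / x ^ α := by
            apply div_le_div₀ hx0.le h4 h2 h1.le
        _ = x ^ (1 - α) := by rw [Real.rpow_sub hx0, Real.rpow_one]
    · intro i
      have hmem : (s.orderEmbOfFin hsc) i ∈ s := Finset.orderEmbOfFin_mem s hsc i
      have h1 := (Finset.mem_filter.1 (hs hmem)).2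
      have h2 := hrb ((s.orderEmbOfFin hsc) i)
      rw [h1] at h2
      exact h2

/-- parity for numbers up to `X` only depends on the primes of `T` up to `X` -/
theorem odd_filter (T : Finset ℕ) {X n : ℕ} (hn : n ≤ X) :
    odd (T.filter (fun q => q ≤ X)) n ↔ odd T n := by
  classical
  unfold odd
  rw [Finset.sum_filter]
  have : ∑ a ∈ T, (if a ≤ X then n.factorization a else 0) = ∑ q ∈ T, n.factorization q := by
    apply Finset.sum_congr rfl
    intro q _
    split_ifs with h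
    · rfl
    · symm
      rcases Nat.eq_zero_or_pos n with rfl | hpos
      · simp
      · apply Nat.factorization_eq_zero_of_not_dvd
        intro hd
        exact h ((Nat.le_of_dvd hpos hd).trans hn)
  rw [this]

theorem main_of (hS : Special) (hR : RankLemma) (hP : Pattern) : Main := by
  classical
  obtain ⟨α, hα0, hα1, hsp⟩ := hS
  set h : ℕ := ⌊1 / α⌋₊ + 1 with hh
  set k : ℕ := (⌊1 / α⌋₊ + 1) * h with hk
  have hhpos : 0 < h := by omega
  refine ⟨k, by positivity, ?_⟩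
  intro T X hT b hb hind
  by_contra hcon
  push Not at hcon
  set A : Finset ℕ := (Finset.range (X + 1)).filter (odd T) with hA
  have hAmem : ∀ a, a ∈ A ↔ a ≤ X ∧ odd T a := by
    intro a
    rw [hA, Finset.mem_filter, Finset.mem_range, Nat.lt_succ_iff]
  obtain ⟨ε, y0, hε0, hε1, hy0, hfew⟩ := few_uniform A (fun a ha =>
    hcon a ((hAmem a).1 ha).1 ((hAmem a).1 ha).2)
  have hhα : 1 / (h : ℝ) ≤ α := by
    have h1 : 1 / α < h := by
      rw [hh]; push_cast; exact Nat.lt_floor_add_one _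
    have h2 : (0:ℝ) < h := by exact_mod_cast hhpos
    rw [div_lt_iff₀ hα0] at h1
    rw [div_le_iff₀ h2]
    linarith
  have hα2 : 0 < α ^ 2 := by positivity
  set τ : ℝ := min ε (α ^ 2) / 2 with hτ
  have hτ0 : 0 < τ := by rw [hτ]; exact half_pos (lt_min hε0 hα2)
  have hτε : τ ≤ ε / 2 := by rw [hτ]; linarith [min_le_left ε (α ^ 2)]
  have hτα : τ ≤ α ^ 2 / 2 := by rw [hτ]; linarith [min_le_right ε (α ^ 2)]
  have hτ1 : τ ≤ 1 / 8 := by linarith
  obtain ⟨g, hg, hgne, hg1, hg0⟩ := exists_wt hτ0 (by linarith)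
  obtain ⟨v, u, hv, hcop, hu8, h8v, hru, hpat⟩ := hP (T.filter (fun q => q ≤ X)) X (by
    intro q hq
    obtain ⟨h1, h2⟩ := Finset.mem_filter.1 hq
    exact ⟨(hT q h1).1, (hT q h1).2, h2⟩)
  obtain ⟨c, X0, hc, hX0, hmass⟩ := hsp v u hv hcop hu8 h8v hru g hg hgne
  have hkpos : 0 < k := by positivity
  have hX2 : 2 ≤ X := (hb ⟨0, hkpos⟩).1.trans (hb ⟨0, hkpos⟩).2.1
  -- constants of the rank lemma
  have hrank : ∀ J : Fin h ↪ Fin k, ∃ C : ℝ, 0 < C ∧ ∀ y : ℝ, 1 ≤ y → ∀ S : Finset ℕ,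
      (∀ p ∈ S, p.Prime ∧ (∀ i, ¬ p ∣ b (J i)) ∧ ∃ m : ℕ, 0 < m ∧ (m : ℝ) ≤ y ∧
        ∀ i, ((b (J i) : ℕ) : ZMod p) ^ m = 1) → (S.card : ℝ) ≤ C * y ^ (1 + 1 / (h : ℝ)) :=
    fun J => hR h (fun i => b (J i)) hhpos (fun i => (hb (J i)).1) (indep_sub hind J)
  choose CJ hCJ0 hCJ using hrank
  set C : ℝ := ∑ J : Fin h ↪ Fin k, CJ J with hC
  have hC0 : 0 ≤ C := Finset.sum_nonneg fun J _ => (hCJ0 J).le
  -- the key inequality
  have key : ∀ x : ℝ, X0 ≤ x → y0 ≤ x → 1 < x → (X : ℝ) < x ^ (1 - τ) →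
      c ≤ (A.card + C) * (Real.log x * x ^ (-τ)) := by
    intro x hx0 hxy hx1 hxX
    have hxpos : 0 < x := by linarith
    have hlog : 0 < Real.log x := Real.log_pos hx1
    set E : Finset ℕ := (Finset.range (⌊x⌋₊ + 1)).filter (fun p => p.Prime ∧ p ≡ u [MOD v] ∧
      ∀ r : ℕ, r.Prime → r ∣ p - 1 → r = 2 ∨ x ^ α < (r : ℝ)) with hE
    have hEmem : ∀ p : ℕ, p ∈ E ↔ (p.Prime ∧ (p : ℝ) ≤ x ∧ p ≡ u [MOD v] ∧
        ∀ r : ℕ, r.Prime → r ∣ p - 1 → r = 2 ∨ x ^ α < (r : ℝ)) := by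
      intro p
      rw [hE, Finset.mem_filter, Finset.mem_range, Nat.lt_succ_iff, Nat.le_floor_iff hxpos.le]
      tauto
    have h1 := hmass x hx0 E hEmem
    set E' : Finset ℕ := E.filter (fun p => x ^ (1 - τ) < (p : ℝ)) with hE'
    -- only `E'` matters
    have h2 : ∑ p ∈ E, Real.log p * wt g x p ≤ (E'.card : ℝ) * (Real.log x * x ^ (τ - 1)) := by
      have h3 : ∑ p ∈ E, Real.log p * wt g x p = ∑ p ∈ E', Real.log p * wt g x p := by
        symm
        apply Finset.sum_subset (Finset.filter_subset _ _)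
        intro p hpE hpE'
        have hple : (p : ℝ) ≤ x ^ (1 - τ) := by
          by_contra hlt
          exact hpE' (Finset.mem_filter.2 ⟨hpE, not_le.1 hlt⟩)
        have hp := ((hEmem p).1 hpE).1
        have hp0 : (0 : ℝ) < p := by exact_mod_cast hp.pos
        have hlp : Real.log p ≤ (1 - τ) * Real.log x := by
          rw [← Real.log_rpow hxpos]
          exact Real.log_le_log hp0 hple
        have : g (Real.log p / Real.log x) = 0 := by
          apply hg0
          rw [div_le_iff₀ hlog]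
          exact hlp
        rw [wt, this]; simp
      rw [h3]
      calc ∑ p ∈ E', Real.log p * wt g x p ≤ ∑ p ∈ E', Real.log x * x ^ (τ - 1) := by
            apply Finset.sum_le_sum
            intro p hp
            obtain ⟨hpE, hpx⟩ := Finset.mem_filter.1 hp
            obtain ⟨hpp, hple, _, _⟩ := (hEmem p).1 hpE
            have hp0 : (0 : ℝ) < p := by exact_mod_cast hpp.pos
            have hlp : Real.log p ≤ Real.log x := Real.log_le_log hp0 hple
            have hlp0 : 0 ≤ Real.log p := Real.log_nonneg (by exact_mod_cast hpp.one_le)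
            have hxt : 0 < x ^ (1 - τ) := Real.rpow_pos_of_pos hxpos _
            have hw : wt g x p ≤ x ^ (τ - 1) := by
              unfold wt
              calc g (Real.log p / Real.log x) / p ≤ 1 / x ^ (1 - τ) :=
                    div_le_div₀ zero_le_one (hg1 _) hxt hpx.le
                _ = x ^ (τ - 1) := by
                    rw [one_div, ← Real.rpow_neg hxpos.le]; congr 1; ring
            have hw0 : 0 ≤ wt g x p := div_nonneg (hg.nonneg _) hp0.le
            exact mul_le_mul hlp hw hw0 hlog.le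
        _ = (E'.card : ℝ) * (Real.log x * x ^ (τ - 1)) := by
            rw [Finset.sum_const, nsmul_eq_mul]
    -- covering
    have hcov : E' ⊆ (A.biUnion fun a => E'.filter (fun p => LeastRoot a p)) ∪
        (Finset.univ : Finset (Fin h ↪ Fin k)).biUnion (fun J => E'.filter (fun p =>
          ∃ m : ℕ, 0 < m ∧ (m : ℝ) ≤ x ^ (1 - α) ∧ ∀ i, ((b (J i) : ℕ) : ZMod p) ^ m = 1)) := by
      intro p hp
      obtain ⟨hpE, hpx⟩ := Finset.mem_filter.1 hp
      obtain ⟨hpp, hple, hpu, hpr⟩ := (hEmem p).1 hpE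
      have hXp : X < p := by exact_mod_cast hxX.trans hpx
      have hsq : ∀ n : ℕ, 1 ≤ n → n ≤ X → (IsSquare ((n : ℕ) : ZMod p) ↔ ¬ odd T n) := by
        intro n hn1 hn2
        rw [hpat p hpp hpu hXp n hn1 hn2, odd_filter T hn2]
      rcases cover hα0 hx1 hk hhpos hb hpp hple hXp hsq hpr with ⟨a, ha1, ha2, ha3⟩ | ⟨J, hJ⟩
      · apply Finset.mem_union_left
        rw [Finset.mem_biUnion]
        exact ⟨a, (hAmem a).2 ⟨ha1, ha2⟩, Finset.mem_filter.2 ⟨hp, ha3⟩⟩
      · apply Finset.mem_union_right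
        rw [Finset.mem_biUnion]
        exact ⟨J, Finset.mem_univ _, Finset.mem_filter.2 ⟨hp, hJ⟩⟩
    have hcard1 : ∀ a ∈ A, ((E'.filter (fun p => LeastRoot a p)).card : ℝ) ≤ x ^ (1 - ε) := by
      intro a ha
      refine (hfew a ha x hxy _ ?_).le
      intro p hp
      obtain ⟨hpE', hpl⟩ := Finset.mem_filter.1 hp
      exact ⟨hpl, ((hEmem p).1 (Finset.mem_filter.1 hpE').1).2.1⟩
    have hxα : 1 ≤ x ^ (1 - α) := Real.one_le_rpow hx1.le (by linarith)
    have hexp : (x ^ (1 - α)) ^ (1 + 1 / (h : ℝ)) ≤ x ^ (1 - α ^ 2) := by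
      rw [← Real.rpow_mul hxpos.le]
      apply Real.rpow_le_rpow_of_exponent_le hx1.le
      have : (1 - α) * (1 + 1 / (h : ℝ)) ≤ (1 - α) * (1 + α) :=
        mul_le_mul_of_nonneg_left (by linarith) (by linarith)
      nlinarith
    have hcard2 : ∀ J : Fin h ↪ Fin k, ((E'.filter (fun p =>
          ∃ m : ℕ, 0 < m ∧ (m : ℝ) ≤ x ^ (1 - α) ∧
            ∀ i, ((b (J i) : ℕ) : ZMod p) ^ m = 1)).card : ℝ) ≤ CJ J * x ^ (1 - α ^ 2) := by
      intro J
      refine (hCJ J (x ^ (1 - α)) hxα _ ?_).trans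
        (mul_le_mul_of_nonneg_left hexp (hCJ0 J).le)
      intro p hp
      obtain ⟨hpE', hpm⟩ := Finset.mem_filter.1 hp
      obtain ⟨hpE, hpx⟩ := Finset.mem_filter.1 hpE'
      have hpp := ((hEmem p).1 hpE).1
      have hXp : X < p := by exact_mod_cast hxX.trans hpx
      refine ⟨hpp, fun i hd => ?_, hpm⟩
      have := Nat.le_of_dvd (by have := (hb (J i)).1; omega) hd
      have := (hb (J i)).2.1
      omega
    have hcardE : (E'.card : ℝ) ≤ A.card * x ^ (1 - ε) + C * x ^ (1 - α ^ 2) := by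
      have h4 : E'.card ≤ ∑ a ∈ A, (E'.filter (fun p => LeastRoot a p)).card +
          ∑ J : Fin h ↪ Fin k, (E'.filter (fun p =>
            ∃ m : ℕ, 0 < m ∧ (m : ℝ) ≤ x ^ (1 - α) ∧
              ∀ i, ((b (J i) : ℕ) : ZMod p) ^ m = 1)).card :=
        (Finset.card_le_card hcov).trans ((Finset.card_union_le _ _).trans
          (add_le_add Finset.card_biUnion_le Finset.card_biUnion_le))
      calc (E'.card : ℝ) ≤ ∑ a ∈ A, ((E'.filter (fun p => LeastRoot a p)).card : ℝ) +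
          ∑ J : Fin h ↪ Fin k, ((E'.filter (fun p =>
            ∃ m : ℕ, 0 < m ∧ (m : ℝ) ≤ x ^ (1 - α) ∧
              ∀ i, ((b (J i) : ℕ) : ZMod p) ^ m = 1)).card : ℝ) := by exact_mod_cast h4
        _ ≤ ∑ a ∈ A, x ^ (1 - ε) + ∑ J : Fin h ↪ Fin k, CJ J * x ^ (1 - α ^ 2) :=
            add_le_add (Finset.sum_le_sum hcard1) (Finset.sum_le_sum fun J _ => hcard2 J)
        _ = A.card * x ^ (1 - ε) + C * x ^ (1 - α ^ 2) := by
            rw [Finset.sum_const, nsmul_eq_mul, ← Finset.sum_mul]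
    have hle1 : x ^ (1 - ε) ≤ x ^ (1 - 2 * τ) :=
      Real.rpow_le_rpow_of_exponent_le hx1.le (by linarith)
    have hle2 : x ^ (1 - α ^ 2) ≤ x ^ (1 - 2 * τ) :=
      Real.rpow_le_rpow_of_exponent_le hx1.le (by linarith)
    have hcardE' : (E'.card : ℝ) ≤ (A.card + C) * x ^ (1 - 2 * τ) := by
      have hA0 : (0 : ℝ) ≤ A.card := Nat.cast_nonneg _
      nlinarith [mul_le_mul_of_nonneg_left hle1 hA0, mul_le_mul_of_nonneg_left hle2 hC0]
    have hpos : 0 ≤ Real.log x * x ^ (τ - 1) := by positivity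
    calc c ≤ (E'.card : ℝ) * (Real.log x * x ^ (τ - 1)) := h1.trans h2
      _ ≤ ((A.card + C) * x ^ (1 - 2 * τ)) * (Real.log x * x ^ (τ - 1)) :=
          mul_le_mul_of_nonneg_right hcardE' hpos
      _ = (A.card + C) * (Real.log x * (x ^ (1 - 2 * τ) * x ^ (τ - 1))) := by ring
      _ = (A.card + C) * (Real.log x * x ^ (-τ)) := by
          rw [← Real.rpow_add hxpos]; congr 3; ring
  -- the limit
  have hlim : Tendsto (fun x : ℝ => (A.card + C) * (Real.log x * x ^ (-τ))) atTop (𝓝 0) := by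
    have h1 : Tendsto (fun x : ℝ => Real.log x / x ^ τ) atTop (𝓝 0) :=
      (isLittleO_log_rpow_atTop hτ0).tendsto_div_nhds_zero
    have h2 : Tendsto (fun x : ℝ => (A.card + C) * (Real.log x / x ^ τ)) atTop (𝓝 0) := by
      simpa using h1.const_mul ((A.card : ℝ) + C)
    refine h2.congr' ?_
    filter_upwards [eventually_gt_atTop (0:ℝ)] with x hx
    rw [Real.rpow_neg hx.le, div_eq_mul_inv]
  have hev : ∀ᶠ x : ℝ in atTop, (X : ℝ) < x ^ (1 - τ) :=
    (tendsto_rpow_atTop (by linarith : 0 < 1 - τ)).eventually_gt_atTop _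
  have := (hlim.eventually (gt_mem_nhds hc)).and (hev.and ((eventually_ge_atTop X0).and
    ((eventually_ge_atTop y0).and (eventually_gt_atTop 1))))
  obtain ⟨x, hx1, hx2, hx3, hx4, hx5⟩ := this.exists
  exact absurd (key x hx3 hx4 hx5 hx2) (not_le.2 hx1)

end Pool.Agent.Helper18.BV
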