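import Pool.Agent.Helper18.BV.St

/-! # Project BV: elementary facts on the weights -/

set_option autoImplicit false

open Finset Filter Topology
open scoped ArithmeticFunction.vonMangoldt

namespace Pool.Agent.Helper18.BV

theorem IsWt.zero_of_le {g : ℝ → ℝ} (hg : IsWt g) {v : ℝ} (hv : v ≤ 1 / 2) : g v = 0 := by
  by_contra hne
  exact absurd (hg.supp (subset_tsupport g (Function.mem_support.2 hne))).1 (not_lt.2 hv)

theorem IsWt.zero_of_ge {g : ℝ → ℝ} (hg : IsWt g) {v : ℝ} (hv : 1 ≤ v) : g v = 0 := by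
  by_contra hne
  exact absurd (hg.supp (subset_tsupport g (Function.mem_support.2 hne))).2 (not_lt.2 hv)

theorem IsWt.exists_bound {g : ℝ → ℝ} (hg : IsWt g) : ∃ M : ℝ, 0 < M ∧ ∀ v, g v ≤ M := by
  obtain ⟨M, hM⟩ := (isCompact_Icc (a := (0:ℝ)) (b := 1)).exists_bound_of_continuousOn
    hg.smooth.continuous.continuousOn
  refine ⟨max M 1, lt_max_of_lt_right one_pos, fun v => ?_⟩
  by_cases h : v ∈ Set.Icc (0:ℝ) 1
  · exact ((le_abs_self _).trans (hM v h)).trans (le_max_left _ _)
  · have : g v = 0 := by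
      rw [Set.mem_Icc, not_and_or, not_le, not_le] at h
      rcases h with h | h
      · exact hg.zero_of_le (by linarith)
      · exact hg.zero_of_ge h.le
    rw [this]
    exact zero_le_one.trans (le_max_right _ _)

theorem wt_nonneg {g : ℝ → ℝ} (hg : IsWt g) (x : ℝ) (n : ℕ) : 0 ≤ wt g x n :=
  div_nonneg (hg.nonneg _) (Nat.cast_nonneg _)

/-- the weight vanishes for `n ≤ √x` -/
theorem wt_zero {g : ℝ → ℝ} (hg : IsWt g) {x : ℝ} (hx : 1 < x) {n : ℕ}
    (hn : (n : ℝ) ≤ x ^ (1 / 2 : ℝ)) : wt g x n = 0 := by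
  rcases Nat.eq_zero_or_pos n with rfl | hn0
  · simp [wt]
  have hn' : (0:ℝ) < n := by exact_mod_cast hn0
  have hlog : 0 < Real.log x := Real.log_pos hx
  have h1 : Real.log n ≤ 1 / 2 * Real.log x := by
    rw [← Real.log_rpow (by linarith)]
    exact Real.log_le_log hn' hn
  have : g (Real.log n / Real.log x) = 0 := by
    apply hg.zero_of_le
    rwa [div_le_iff₀ hlog]
  rw [wt, this, zero_div]

/-- the non-primes contribute little -/
theorem nonprime_small {g : ℝ → ℝ} (hg : IsWt g) {ε : ℝ} (hε : 0 < ε) :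
    ∃ X0 : ℝ, 3 ≤ X0 ∧ ∀ x : ℝ, X0 ≤ x → ∀ T : Finset ℕ, (∀ n ∈ T, ¬ n.Prime) →
      ∑ n ∈ T, Λ n * wt g x n ≤ ε := by
  obtain ⟨M, hM, hgM⟩ := hg.exists_bound
  have hsum := ArithmeticFunction.vonMangoldt.summable_residueClass_non_primes_div (q := 1) (0 : ZMod 1)
  have hsum' : Summable (fun n : ℕ => (if n.Prime then 0 else Λ n) / n) := by
    refine hsum.congr (fun n => ?_)
    congr 1
    split_ifs
    · rfl
    · unfold ArithmeticFunction.vonMangoldt.residueClass
      rw [Set.indicator_of_mem]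
      exact Subsingleton.elim _ _
  obtain ⟨s, hs⟩ := summable_iff_vanishing_norm.1 hsum' (ε / M) (by positivity)
  set N : ℕ := s.sup id with hN
  refine ⟨((N : ℝ) + 3) ^ 2, by nlinarith [Nat.cast_nonneg (α := ℝ) N], fun x hx T hT => ?_⟩
  have hN0 : (0:ℝ) ≤ N := Nat.cast_nonneg _
  have hx1 : 1 < x := by nlinarith
  have hsq : (N : ℝ) ≤ x ^ (1 / 2 : ℝ) := by
    rw [← Real.sqrt_eq_rpow]
    apply Real.le_sqrt_of_sq_le
    nlinarith
  have hT' : ∑ n ∈ T, Λ n * wt g x n =
      ∑ n ∈ T.filter (fun n => N < n), Λ n * wt g x n := by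
    symm
    apply Finset.sum_subset (Finset.filter_subset _ _)
    intro n hn hn'
    have hle : n ≤ N := by
      by_contra hlt
      exact hn' (Finset.mem_filter.2 ⟨hn, not_le.1 hlt⟩)
    rw [wt_zero hg hx1 (le_trans (by exact_mod_cast hle) hsq), mul_zero]
  rw [hT']
  have h1 := hs (T.filter (fun n => N < n)) (by
    rw [Finset.disjoint_left]
    intro n hn hns
    have h2 : n ≤ N := Finset.le_sup (f := id) hns
    have h3 := (Finset.mem_filter.1 hn).2
    omega)
  have h2 : ∑ n ∈ T.filter (fun n => N < n), Λ n * wt g x n ≤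
      ∑ n ∈ T.filter (fun n => N < n), M * ((if n.Prime then 0 else Λ n) / n) := by
    apply Finset.sum_le_sum
    intro n hn
    have hnp := hT n (Finset.mem_filter.1 hn).1
    rw [if_neg hnp, wt]
    have hL : 0 ≤ Λ n := ArithmeticFunction.vonMangoldt_nonneg
    have h4 : Λ n * (g (Real.log n / Real.log x) / n) =
        g (Real.log n / Real.log x) * (Λ n / n) := by ring
    rw [h4]
    exact mul_le_mul_of_nonneg_right (hgM _) (div_nonneg hL (Nat.cast_nonneg _))
  rw [← Finset.mul_sum] at h2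
  refine h2.trans ?_
  have h3 := (le_abs_self _).trans h1.le
  calc M * _ ≤ M * (ε / M) := mul_le_mul_of_nonneg_left h3 hM.le
    _ = ε := by field_simp

end Pool.Agent.Helper18.BV
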