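import Pool.Agent.Helper18.BV.Assemble2

/-!
# Project BV: consequences of the main theorem
-/

set_option autoImplicit false

open Finset Filter Topology
open scoped Classical

namespace Pool.Agent.Helper18.BV

/-! ### growth -/

theorem log_sq_le {y : ℝ} (hy : 1 ≤ y) : Real.log y ^ 2 ≤ 64 * y ^ (1 / 4 : ℝ) := by
  have h0 : 0 ≤ y := by linarith
  have h1 := Real.log_le_rpow_div (x := y) h0 (ε := 1 / 8) (by norm_num)
  have h2 : 0 ≤ Real.log y := Real.log_nonneg hy
  have h3 : Real.log y ^ 2 ≤ (y ^ (1 / 8 : ℝ) / (1 / 8)) ^ 2 := pow_le_pow_left₀ h2 h1 2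
  have h4 : (y ^ (1 / 8 : ℝ) / (1 / 8)) ^ 2 = 64 * y ^ (1 / 4 : ℝ) := by
    rw [div_pow, ← Real.rpow_natCast (y ^ (1 / 8 : ℝ)) 2, ← Real.rpow_mul h0]
    norm_num
    ring
  linarith

/-- `c y / (log y) ^ 2` exceeds `A + B log y` for large `y` -/
theorem growth {c : ℝ} (hc : 0 < c) (A B : ℝ) :
    ∃ y0 : ℝ, 2 ≤ y0 ∧ ∀ y : ℝ, y0 ≤ y → A + B * Real.log y < c * y / Real.log y ^ 2 := by
  have h1 : Tendsto (fun y : ℝ => Real.log y ^ 3 / y) atTop (𝓝 0) := by
    have := isLittleO_log_rpow_rpow_atTop (3:ℝ) (one_pos (α := ℝ))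
    refine this.tendsto_div_nhds_zero.congr' ?_
    filter_upwards [eventually_gt_atTop (1:ℝ)] with y hy
    rw [Real.rpow_one, show (3:ℝ) = ((3:ℕ):ℝ) by norm_num, Real.rpow_natCast]
  have h2 : Tendsto (fun y : ℝ => Real.log y ^ 2 / y) atTop (𝓝 0) := by
    have := isLittleO_log_rpow_rpow_atTop (2:ℝ) (one_pos (α := ℝ))
    refine this.tendsto_div_nhds_zero.congr' ?_
    filter_upwards [eventually_gt_atTop (1:ℝ)] with y hy
    rw [Real.rpow_one, show (2:ℝ) = ((2:ℕ):ℝ) by norm_num, Real.rpow_natCast]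
  have h3 : Tendsto (fun y : ℝ => A * (Real.log y ^ 2 / y) + B * (Real.log y ^ 3 / y)) atTop
      (𝓝 0) := by
    simpa using (h2.const_mul A).add (h1.const_mul B)
  obtain ⟨y0, hy0⟩ := ((h3.eventually (gt_mem_nhds hc)).and
    (eventually_ge_atTop 2)).exists_forall_of_atTop
  refine ⟨max y0 2, le_max_right _ _, fun y hy => ?_⟩
  obtain ⟨h4, h5⟩ := hy0 y ((le_max_left _ _).trans hy)
  have hy' : 0 < y := by linarith
  have hlog : 0 < Real.log y := Real.log_pos (by linarith)
  rw [lt_div_iff₀ (by positivity)]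
  have h6 : (A * (Real.log y ^ 2 / y) + B * (Real.log y ^ 3 / y)) * y < c * y :=
    mul_lt_mul_of_pos_right h4 hy'
  have h7 : (A * (Real.log y ^ 2 / y) + B * (Real.log y ^ 3 / y)) * y =
      (A + B * Real.log y) * Real.log y ^ 2 := by
    field_simp
  linarith

theorem Dense.infinite {a : ℕ} (h : Dense a) : {p : ℕ | LeastRoot a p}.Infinite := by
  intro hfin
  obtain ⟨c, hc, hd⟩ := h
  obtain ⟨y0, hy0, hg⟩ := growth hc (hfin.toFinset.card) 0
  obtain ⟨y, hy, hcount⟩ := hd y0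
  have h1 := hg y hy
  have h2 : cnt a y ≤ hfin.toFinset.card := by
    apply Finset.card_le_card
    intro p hp
    rw [Set.Finite.mem_toFinset]
    exact (Finset.mem_filter.1 hp).2
  have h3 : (cnt a y : ℝ) ≤ hfin.toFinset.card := by exact_mod_cast h2
  linarith

/-- the inequality of Q2 for infinitely many `n` -/
theorem Dense.q2 {a : ℕ} (h : Dense a) (N : ℕ) : ∃ n : ℕ, N ≤ n ∧ 1 ≤ n ∧
    (Nat.nth (LeastRoot a) n : ℝ) < (Nat.nth (LeastRoot a) (n - 1) : ℝ) ^ (1 + 1 / (n : ℝ)) := by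
  have hinf := h.infinite
  by_contra hcon
  push Not at hcon
  set s : ℕ → ℕ := Nat.nth (LeastRoot a) with hs
  have hsp : ∀ n, LeastRoot a (s n) := fun n => Nat.nth_mem_of_infinite hinf n
  have hs2 : ∀ n, 2 ≤ s n := fun n => (hsp n).1.two_le
  have hspos : ∀ n, (0:ℝ) < s n := fun n => by exact_mod_cast (by have := hs2 n; omega : 0 < s n)
  have hlogpos : ∀ n, 0 < Real.log (s n) := fun n =>
    Real.log_pos (by exact_mod_cast (by have := hs2 n; omega : 1 < s n))
  set M : ℕ := N + 1 with hM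
  set δ : ℝ := Real.log (s N) / M with hδ
  have hM0 : (0:ℝ) < M := by rw [hM]; positivity
  have hδ0 : 0 < δ := div_pos (hlogpos N) hM0
  -- exponential growth
  have hexp : ∀ n, N ≤ n → δ * (n + 1) ≤ Real.log (s n) := by
    intro n hn
    induction n, hn using Nat.le_induction with
    | base =>
      have : ((N : ℝ) + 1) = M := by rw [hM]; push_cast; ring
      rw [this, hδ, div_mul_cancel₀ _ hM0.ne']
    | succ n hn ih =>
      have h1 := hcon (n + 1) (by omega) (by omega)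
      rw [Nat.add_sub_cancel] at h1
      have h2 : (1 + 1 / ((n + 1 : ℕ) : ℝ)) * Real.log (s n) ≤ Real.log (s (n + 1)) := by
        rw [← Real.log_rpow (hspos n)]
        exact Real.log_le_log (Real.rpow_pos_of_pos (hspos n) _) h1
      have hn0 : (0:ℝ) < (n : ℝ) + 1 := by positivity
      calc δ * (((n + 1 : ℕ) : ℝ) + 1) = (1 + 1 / ((n + 1 : ℕ) : ℝ)) * (δ * (n + 1)) := by
            push_cast; field_simp
        _ ≤ (1 + 1 / ((n + 1 : ℕ) : ℝ)) * Real.log (s n) :=
            mul_le_mul_of_nonneg_left ih (by positivity)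
        _ ≤ _ := h2
  obtain ⟨c, hc, hd⟩ := h
  obtain ⟨y0, hy0, hg⟩ := growth hc (M + 1) (1 / δ)
  obtain ⟨y, hy, hcount⟩ := hd y0
  have h1 := hg y hy
  have hy1 : 0 < y := by linarith
  have hlogy : 0 < Real.log y := Real.log_pos (by linarith)
  have hcnt : (cnt a y : ℝ) ≤ M + 1 + 1 / δ * Real.log y := by
    by_cases hle : cnt a y ≤ M
    · have : (cnt a y : ℝ) ≤ M := by exact_mod_cast hle
      have : 0 ≤ 1 / δ * Real.log y := by positivity
      linarith
    · have hlt : M < cnt a y := not_le.1 hle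
      have hcc : cnt a y = Nat.count (LeastRoot a) (⌊y⌋₊ + 1) := by
        rw [Nat.count_eq_card_filter_range]; rfl
      have h2 : s (cnt a y - 1) < ⌊y⌋₊ + 1 := by
        apply Nat.nth_lt_of_lt_count
        rw [← hcc]; omega
      have h3 : (s (cnt a y - 1) : ℝ) ≤ y := by
        rw [← Nat.le_floor_iff hy1.le]; omega
      have h4 := hexp (cnt a y - 1) (by omega)
      have h5 : Real.log (s (cnt a y - 1)) ≤ Real.log y := Real.log_le_log (hspos _) h3
      have h6 : ((cnt a y - 1 : ℕ) : ℝ) + 1 = cnt a y := by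
        rw [Nat.cast_sub (by omega)]; push_cast; ring
      rw [h6] at h4
      have h7 : (cnt a y : ℝ) ≤ 1 / δ * Real.log y := by
        rw [div_mul_eq_mul_div, one_mul, le_div_iff₀ hδ0]
        linarith
      linarith
  have : ((M : ℝ) + 1) + 1 / δ * Real.log y < c * y / Real.log y ^ 2 := h1
  linarith

/-! ### independence -/

/-- if `ℓ j` is a prime dividing `b j` exactly once and no other `b i`, the `b i` are independent -/
theorem indep_of_private {k : ℕ} (b ℓ : Fin k → ℕ) (hb : ∀ i, b i ≠ 0)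
    (h1 : ∀ i, (b i).factorization (ℓ i) = 1)
    (h2 : ∀ i j, i ≠ j → (b i).factorization (ℓ j) = 0) :
    ∀ e : Fin k → ℤ, ∏ i, ((b i : ℕ) : ℚ) ^ e i = 1 → e = 0 := by
  intro e he
  have hne : ∀ i, ((b i : ℕ) : ℚ) ≠ 0 := fun i => by exact_mod_cast hb i
  have h3 : ∏ i, ((b i : ℕ) : ℚ) ^ (e i).toNat = ∏ i, ((b i : ℕ) : ℚ) ^ (-e i).toNat := by
    have h4 : ∀ i, ((b i : ℕ) : ℚ) ^ (e i).toNat =
        ((b i : ℕ) : ℚ) ^ e i * ((b i : ℕ) : ℚ) ^ (-e i).toNat := by
      intro i
      rw [← zpow_natCast, ← zpow_natCast, ← zpow_add₀ (hne i)]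
      congr 1
      omega
    rw [Finset.prod_congr rfl (fun i _ => h4 i), Finset.prod_mul_distrib, he, one_mul]
  have h5 : ∏ i, (b i) ^ (e i).toNat = ∏ i, (b i) ^ (-e i).toNat := by
    have : ((∏ i, (b i) ^ (e i).toNat : ℕ) : ℚ) = ((∏ i, (b i) ^ (-e i).toNat : ℕ) : ℚ) := by
      push_cast; exact h3
    exact_mod_cast this
  have hfac : ∀ (f : Fin k → ℕ) (j : Fin k), (∏ i, (b i) ^ f i).factorization (ℓ j) = f j := by
    intro f j
    rw [Nat.factorization_prod (fun i _ => pow_ne_zero _ (hb i))]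
    rw [Finsupp.finsetSum_apply]
    rw [Finset.sum_eq_single j]
    · rw [Nat.factorization_pow]; simp [h1]
    · intro i _ hij
      rw [Nat.factorization_pow]; simp [h2 i j hij]
    · intro h; exact absurd (Finset.mem_univ j) h
  funext j
  have h6 := congrArg (fun n => n.factorization (ℓ j)) h5
  simp only [hfac] at h6
  have : (e j).toNat = (-e j).toNat := h6
  simp only [Pi.zero_apply]
  omega

/-! ### primes in dyadic blocks -/

/-- every set of `k` primes in `[Y, 2Y)` contains a dense one -/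
theorem block {k : ℕ}
    (hM : ∀ (T : Finset ℕ) (X : ℕ), (∀ q ∈ T, q.Prime ∧ 5 ≤ q) → ∀ b : Fin k → ℕ,
      (∀ i, 2 ≤ b i ∧ b i ≤ X ∧ odd T (b i)) →
      (∀ e : Fin k → ℤ, ∏ i, ((b i : ℕ) : ℚ) ^ e i = 1 → e = 0) →
      ∃ a : ℕ, a ≤ X ∧ odd T a ∧ Dense a)
    (Y : ℕ) (hY : 5 ≤ Y) (T : Finset ℕ) (hT : ∀ q ∈ T, q.Prime ∧ Y ≤ q ∧ q < 2 * Y)
    (hTk : k ≤ T.card) : ∃ q ∈ T, Dense q := by
  obtain ⟨T', hT', hcard⟩ := Finset.exists_subset_card_eq hTk
  set b : Fin k → ℕ := fun i => T'.orderEmbOfFin hcard i with hb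
  have hbT : ∀ i, b i ∈ T' := fun i => Finset.orderEmbOfFin_mem T' hcard i
  have hbinj : ∀ i j, i ≠ j → b i ≠ b j := by
    intro i j hij h
    exact hij ((T'.orderEmbOfFin hcard).injective h)
  have hbp : ∀ i, (b i).Prime := fun i => (hT _ (hT' (hbT i))).1
  have hself : ∀ i, (b i).factorization (b i) = 1 := fun i => (hbp i).factorization_self
  have hoth : ∀ q, q ∈ T' → ∀ i, b i ≠ q → (b i).factorization q = 0 := by
    intro q hq i hne
    apply Nat.factorization_eq_zero_of_not_dvd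
    intro hd
    have hqp := (hT _ (hT' hq)).1
    rcases (Nat.dvd_prime (hbp i)).1 hd with h | h
    · exact hqp.ne_one h
    · exact hne h.symm
  obtain ⟨a, ha1, ha2, ha3⟩ := hM T' (2 * Y - 1)
    (fun q hq => ⟨(hT _ (hT' hq)).1, hY.trans (hT _ (hT' hq)).2.1⟩) b
    (fun i => by
      have h1 := hT _ (hT' (hbT i))
      refine ⟨(hbp i).two_le, by omega, ?_⟩
      unfold odd
      rw [Finset.sum_eq_single (b i)]
      · rw [hself]; exact odd_one
      · intro q hq hne
        exact hoth q hq i hne.symm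
      · intro h; exact absurd (hbT i) h)
    (indep_of_private b b (fun i => (hbp i).ne_zero) hself
      (fun i j hij => hoth (b j) (hbT j) i (hbinj i j hij)))
  -- `a` is one of the primes
  have hex : ∃ q ∈ T', a.factorization q ≠ 0 := by
    by_contra hcon
    push Not at hcon
    unfold odd at ha2
    rw [Finset.sum_eq_zero hcon] at ha2
    exact absurd ha2 (by decide)
  obtain ⟨q, hq, hqa⟩ := hex
  have hqd : q ∣ a := Nat.dvd_of_factorization_pos hqa
  have ha0 : a ≠ 0 := by rintro rfl; simp at hqa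
  have hqT := hT q (hT' hq)
  obtain ⟨m, hm⟩ := hqd
  have hm1 : m = 1 := by
    have hm0 : m ≠ 0 := by rintro rfl; simp at hm; exact ha0 hm
    by_contra hne
    have h2 : 2 ≤ m := by omega
    have : q * 2 ≤ q * m := Nat.mul_le_mul_left q h2
    omega
  rw [hm1, mul_one] at hm
  exact ⟨q, hT' hq, hm ▸ ha3⟩

/-- the number of exceptional primes up to `x` -/
theorem count_exceptions {k : ℕ}
    (hM : ∀ (T : Finset ℕ) (X : ℕ), (∀ q ∈ T, q.Prime ∧ 5 ≤ q) → ∀ b : Fin k → ℕ,
      (∀ i, 2 ≤ b i ∧ b i ≤ X ∧ odd T (b i)) →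
      (∀ e : Fin k → ℤ, ∏ i, ((b i : ℕ) : ℚ) ^ e i = 1 → e = 0) →
      ∃ a : ℕ, a ≤ X ∧ odd T a ∧ Dense a) {x : ℝ} (hx : 2 ≤ x) :
    ({a : ℕ | a.Prime ∧ (a : ℝ) ≤ x ∧ ¬ Dense a}.ncard : ℝ) ≤ 4 * (k + 8) * Real.log x := by
  have hx0 : 0 < x := by linarith
  set E : Finset ℕ := (range (⌊x⌋₊ + 1)).filter (fun a => a.Prime ∧ ¬ Dense a) with hE
  have hset : {a : ℕ | a.Prime ∧ (a : ℝ) ≤ x ∧ ¬ Dense a} = (E : Set ℕ) := by
    ext a
    rw [Set.mem_ofPred_eq, Finset.mem_coe, hE, Finset.mem_filter, Finset.mem_range,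
      Nat.lt_succ_iff, Nat.le_floor_iff hx0.le]
    tauto
  rw [hset, Set.ncard_coe_finset]
  set J : ℕ := Nat.log 2 ⌊x⌋₊ with hJ
  have hmaps : ∀ a ∈ E, Nat.log 2 a ∈ range (J + 1) := by
    intro a ha
    rw [Finset.mem_range, Nat.lt_succ_iff]
    exact Nat.log_mono_right (Nat.lt_succ_iff.1 (Finset.mem_range.1 (Finset.mem_filter.1 ha).1))
  have hfib : ∀ j ∈ range (J + 1), (E.filter (fun a => Nat.log 2 a = j)).card ≤ k + 8 := by
    intro j _
    by_cases hj : 3 ≤ j
    · have hlt : (E.filter (fun a => Nat.log 2 a = j)).card < k := by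
        by_contra hge
        obtain ⟨q, hq, hqd⟩ := block hM (2 ^ j) (by
          have : 2 ^ 3 ≤ 2 ^ j := Nat.pow_le_pow_right (by norm_num) hj
          omega) (E.filter (fun a => Nat.log 2 a = j)) (by
          intro q hq
          obtain ⟨h1, h2⟩ := Finset.mem_filter.1 hq
          have hqp := (Finset.mem_filter.1 h1).2.1
          refine ⟨hqp, ?_, ?_⟩
          · rw [← h2]; exact Nat.pow_log_le_self 2 hqp.ne_zero
          · have := Nat.lt_pow_succ_log_self (b := 2) (by norm_num) q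
            rw [h2, pow_succ] at this
            omega) (not_lt.1 hge)
        exact (Finset.mem_filter.1 (Finset.mem_filter.1 hq).1).2.2 hqd
      omega
    · have hsub : E.filter (fun a => Nat.log 2 a = j) ⊆ range 8 := by
        intro a ha
        have h2 := (Finset.mem_filter.1 ha).2
        rw [Finset.mem_range]
        calc a < 2 ^ (Nat.log 2 a + 1) := Nat.lt_pow_succ_log_self (by norm_num) a
          _ ≤ 2 ^ 3 := Nat.pow_le_pow_right (by norm_num) (by omega)
          _ = 8 := by norm_num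
      have := Finset.card_le_card hsub
      rw [Finset.card_range] at this
      omega
  have hcard : E.card ≤ (J + 1) * (k + 8) := by
    rw [Finset.card_eq_sum_card_fiberwise (fun a ha => hmaps a ha)]
    calc ∑ j ∈ range (J + 1), (E.filter (fun a => Nat.log 2 a = j)).card
        ≤ ∑ j ∈ range (J + 1), (k + 8) := Finset.sum_le_sum hfib
      _ = (J + 1) * (k + 8) := by rw [Finset.sum_const, Finset.card_range, smul_eq_mul]
  have hl2 : 0 < Real.log 2 := Real.log_pos (by norm_num)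
  have hJle : (J : ℝ) * Real.log 2 ≤ Real.log x := by
    have hfl : ⌊x⌋₊ ≠ 0 := by
      have : 2 ≤ ⌊x⌋₊ := Nat.le_floor (by exact_mod_cast hx)
      omega
    have h4 := Nat.pow_log_le_self 2 hfl
    have h5 : ((2:ℝ)) ^ J ≤ x := by
      calc ((2:ℝ)) ^ J = ((2 ^ J : ℕ) : ℝ) := by push_cast; rfl
        _ ≤ (⌊x⌋₊ : ℝ) := by exact_mod_cast h4
        _ ≤ x := Nat.floor_le hx0.le
    have h6 := Real.log_le_log (by positivity) h5
    rwa [Real.log_pow] at h6
  have hlogx : Real.log 2 ≤ Real.log x := Real.log_le_log (by norm_num) hx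
  have hl3 : (1:ℝ) / 2 ≤ Real.log 2 := by linarith [Real.log_two_gt_d9]
  have hJ1 : (J : ℝ) + 1 ≤ 4 * Real.log x := by
    have h7 : ((J : ℝ) + 1) * Real.log 2 ≤ 2 * Real.log x := by nlinarith
    nlinarith [Nat.cast_nonneg (α := ℝ) J]
  calc (E.card : ℝ) ≤ (J + 1) * (k + 8) := by exact_mod_cast hcard
    _ ≤ (4 * Real.log x) * (k + 8) := mul_le_mul_of_nonneg_right hJ1 (by positivity)
    _ = 4 * (k + 8) * Real.log x := by ring

/-- bounded multiples of primes -/
theorem multiples {k : ℕ}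
    (hM : ∀ (T : Finset ℕ) (X : ℕ), (∀ q ∈ T, q.Prime ∧ 5 ≤ q) → ∀ b : Fin k → ℕ,
      (∀ i, 2 ≤ b i ∧ b i ≤ X ∧ odd T (b i)) →
      (∀ e : Fin k → ℤ, ∏ i, ((b i : ℕ) : ℚ) ^ e i = 1 → e = 0) →
      ∃ a : ℕ, a ≤ X ∧ odd T a ∧ Dense a) {q : ℕ} (hq : q.Prime) (hq5 : 5 ≤ q) :
    ∃ m : ℕ, 1 ≤ m ∧ m ≤ Nat.nth Nat.Prime k ∧ Dense (m * q) := by
  have hnp : ∀ i, (Nat.nth Nat.Prime i).Prime := fun i => Nat.prime_nth_prime i
  have hmono : StrictMono (Nat.nth Nat.Prime) := Nat.nth_strictMono Nat.infinite_setOfPred_prime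
  set f : ℕ → ℕ := fun i => if Nat.nth Nat.Prime i < q then Nat.nth Nat.Prime i
    else Nat.nth Nat.Prime (i + 1) with hf
  have hfp : ∀ i, (f i).Prime := by
    intro i; simp only [hf]; split_ifs <;> exact hnp _
  have hfq : ∀ i, f i ≠ q := by
    intro i; simp only [hf]; split_ifs with h
    · exact h.ne
    · have := hmono (Nat.lt_succ_self i)
      have h' := not_lt.1 h
      exact (lt_of_le_of_lt h' this).ne'
  have hfmono : StrictMono f := by
    intro i j hij
    simp only [hf]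
    have h1 := hmono hij
    split_ifs with h2 h3 h3
    · exact h1
    · exact h1.trans (hmono (Nat.lt_succ_self j))
    · exact absurd (h1.trans h3) h2
    · exact hmono (Nat.succ_lt_succ hij)
  have hfle : ∀ i, i < k → f i ≤ Nat.nth Nat.Prime k := by
    intro i hi
    simp only [hf]
    split_ifs
    · exact hmono.monotone hi.le
    · exact hmono.monotone hi
  set b : Fin k → ℕ := fun i => q * f i with hb
  have hfac : ∀ (i : Fin k) (r : ℕ), (b i).factorization r =
      q.factorization r + (f i).factorization r := by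
    intro i r
    rw [hb]
    simp only
    rw [Nat.factorization_mul hq.ne_zero (hfp i).ne_zero]
    rfl
  have hoff : ∀ {a c : ℕ}, a.Prime → c.Prime → a ≠ c → a.factorization c = 0 := by
    intro a c ha hc hac
    apply Nat.factorization_eq_zero_of_not_dvd
    intro hd
    rcases (Nat.dvd_prime ha).1 hd with h | h
    · exact hc.ne_one h
    · exact hac h.symm
  obtain ⟨a, ha1, ha2, ha3⟩ := hM {q} (q * Nat.nth Nat.Prime k)
    (fun r hr => by rw [Finset.mem_singleton.1 hr]; exact ⟨hq, hq5⟩) b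
    (fun i => by
      refine ⟨?_, Nat.mul_le_mul_left q (hfle i i.2), ?_⟩
      · have := hq.two_le
        have := (hfp i).pos
        simp only [hb]
        nlinarith
      · unfold odd
        rw [Finset.sum_singleton, hfac, hq.factorization_self, hoff (hfp i) hq (hfq i)]
        exact odd_one)
    (indep_of_private b (fun i => f i) (fun i => Nat.mul_ne_zero hq.ne_zero (hfp i).ne_zero)
      (fun i => by rw [hfac, hoff hq (hfp i) (hfq i).symm, (hfp i).factorization_self])
      (fun i j hij => by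
        rw [hfac, hoff hq (hfp j) (hfq j).symm, hoff (hfp i) (hfp j)]
        intro h
        exact hij (Fin.ext (hfmono.injective h))))
  unfold odd at ha2
  rw [Finset.sum_singleton] at ha2
  have hfne : a.factorization q ≠ 0 := by
    intro h; rw [h] at ha2; exact absurd ha2 (by decide)
  have hqd : q ∣ a := Nat.dvd_of_factorization_pos hfne
  have ha0 : a ≠ 0 := by rintro rfl; simp at hfne
  obtain ⟨m, hm⟩ := hqd
  refine ⟨m, ?_, ?_, ?_⟩
  · rcases Nat.eq_zero_or_pos m with rfl | h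
    · simp at hm; exact absurd hm ha0
    · exact h
  · rw [hm] at ha1
    exact Nat.le_of_mul_le_mul_left ha1 hq.pos
  · rw [mul_comm, ← hm]; exact ha3

end Pool.Agent.Helper18.BV
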