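import Pool.Agent.Helper18.BV.Bv
import Pool.Agent.Helper18.BV.Cor
import Pool.Agent.Helper18.BV.SpecialPrimes
import Pool.Agent.Helper44.BV.Mass
import Pool.Agent.Helper28.BV.SieveW
import Pool.Agent.Helper46.BV.Rank
import Pool.Agent.Helper46.BV.Pattern

/-!
# Project BV: the main theorem in general form
-/

set_option autoImplicit false

namespace Pool.Agent.Helper18.BV

/-- The main theorem in general form. -/
theorem main2 : Main2 :=
  main2_of (Pool.Agent.Helper18.BV.special bv Pool.Agent.Helper44.BV.mass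
    Pool.Agent.Helper28.BV.sieveW) Pool.Agent.Helper46.BV.rankLemma Pool.Agent.Helper46.BV.pattern

/-- The two properties of `a` proved for almost all primes `a`: `Dense a`, and the inequality
`p_{n+1} < p_n ^ (1 + 1/n)` for infinitely many `n`, where `p_1 < p_2 < ...` are the primes whose
least positive primitive root is `a`. -/
def Rich (a : ℕ) : Prop :=
  Dense a ∧ {p : ℕ | LeastRoot a p}.Infinite ∧
    ∀ N : ℕ, ∃ n : ℕ, N ≤ n ∧ 1 ≤ n ∧ (Nat.nth (LeastRoot a) n : ℝ) <
      (Nat.nth (LeastRoot a) (n - 1) : ℝ) ^ (1 + 1 / (n : ℝ))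

theorem Dense.rich {a : ℕ} (h : Dense a) : Rich a := ⟨h, h.infinite, h.q2⟩

theorem rich_iff {a : ℕ} : Rich a ↔ Dense a := ⟨fun h => h.1, fun h => h.rich⟩

end Pool.Agent.Helper18.BV
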