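import Pool.Agent.Helper18.BV.Assemble

/-!
# Project BV: assembly with the lower bound `c y / (log y) ^ 2`
-/

set_option autoImplicit false

open Finset Filter Topology
open scoped Classical

namespace Pool.Agent.Helper18.BV

/-- the number of primes up to `y` whose least primitive root is `a` -/
noncomputable def cnt (a : ℕ) (y : ℝ) : ℕ := ((range (⌊y⌋₊ + 1)).filter (LeastRoot a)).card

/-- `a` is the least primitive root of at least `c y / (log y) ^ 2` primes up to `y`, for arbitrarily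
large `y` and some `c > 0`. -/
def Dense (a : ℕ) : Prop :=
  ∃ c : ℝ, 0 < c ∧ ∀ y0 : ℝ, ∃ y : ℝ, y0 ≤ y ∧ c * y / Real.log y ^ 2 ≤ cnt a y

/-- the main theorem in general form -/
def Main2 : Prop :=
  ∃ k : ℕ, 0 < k ∧ ∀ (T : Finset ℕ) (X : ℕ), (∀ q ∈ T, q.Prime ∧ 5 ≤ q) → ∀ b : Fin k → ℕ,
    (∀ i, 2 ≤ b i ∧ b i ≤ X ∧ odd T (b i)) →
    (∀ e : Fin k → ℤ, ∏ i, ((b i : ℕ) : ℚ) ^ e i = 1 → e = 0) →
    ∃ a : ℕ, a ≤ X ∧ odd T a ∧ Dense a

theorem not_dense {a : ℕ} (h : ¬ Dense a) (c : ℝ) (hc : 0 < c) :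
    ∃ y0 : ℝ, ∀ y : ℝ, y0 ≤ y → (cnt a y : ℝ) < c * y / Real.log y ^ 2 := by
  unfold Dense at h
  push Not at h
  exact h c hc

theorem not_dense_uniform (A : Finset ℕ) (h : ∀ a ∈ A, ¬ Dense a) (c : ℝ) (hc : 0 < c) :
    ∃ y0 : ℝ, ∀ a ∈ A, ∀ y : ℝ, y0 ≤ y → (cnt a y : ℝ) < c * y / Real.log y ^ 2 := by
  induction A using Finset.induction_on with
  | empty => exact ⟨0, by simp⟩
  | insert a A ha ih =>
    obtain ⟨y0, hy0⟩ := ih (fun b hb => h b (Finset.mem_insert_of_mem hb))
    obtain ⟨y1, hy1⟩ := not_dense (h a (Finset.mem_insert_self a A)) c hc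
    refine ⟨max y0 y1, ?_⟩
    intro b hb y hy
    rcases Finset.mem_insert.1 hb with rfl | hb
    · exact hy1 y ((le_max_right _ _).trans hy)
    · exact hy0 b hb y ((le_max_left _ _).trans hy)

theorem sum_biUnion_le' {ι : Type*} (s : Finset ι) (t : ι → Finset ℕ) (f : ℕ → ℝ)
    (hf : ∀ n, 0 ≤ f n) : ∑ n ∈ s.biUnion t, f n ≤ ∑ i ∈ s, ∑ n ∈ t i, f n := by
  induction s using Finset.induction_on with
  | empty => simp
  | insert a s ha ih =>
    rw [Finset.biUnion_insert, Finset.sum_insert ha]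
    have h1 : ∑ n ∈ t a ∪ s.biUnion t, f n ≤ ∑ n ∈ t a, f n + ∑ n ∈ s.biUnion t, f n := by
      rw [← Finset.sum_union_inter]
      have : 0 ≤ ∑ n ∈ t a ∩ s.biUnion t, f n := Finset.sum_nonneg fun n _ => hf n
      linarith
    linarith

/-- a sparse set of integers between `√x` and `x` has small logarithmic mass -/
theorem dyadic {c x z : ℝ} (hc : 0 ≤ c) (hx : 4 ≤ x) (hz : x ^ (1 / 2 : ℝ) ≤ z) (F : Finset ℕ)
    (hF : ∀ p ∈ F, z ≤ (p : ℝ) ∧ (p : ℝ) ≤ x)
    (hcount : ∀ y : ℝ, z ≤ y → ((F.filter (fun p : ℕ => (p : ℝ) ≤ y)).card : ℝ) ≤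
      c * y / Real.log y ^ 2) :
    ∑ p ∈ F, Real.log p / p ≤ 16 * c := by
  have hx0 : 0 < x := by linarith
  have hz2 : 2 ≤ z := by
    refine le_trans ?_ hz
    rw [← Real.sqrt_eq_rpow]
    apply Real.le_sqrt_of_sq_le
    linarith
  have hz0 : 0 < z := by linarith
  have hl2 : 0 < Real.log 2 := Real.log_pos (by norm_num)
  have hlx : 0 < Real.log x := Real.log_pos (by linarith)
  set J : Finset ℕ := F.image (Nat.log 2) with hJ
  have hfib : ∑ p ∈ F, Real.log p / p =
      ∑ j ∈ J, ∑ p ∈ F.filter (fun p => Nat.log 2 p = j), Real.log p / p :=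
    (Finset.sum_fiberwise_of_maps_to (fun p hp => Finset.mem_image_of_mem (Nat.log 2) hp) _).symm
  -- bounds for the elements of a block
  have hblock : ∀ j ∈ J, ∑ p ∈ F.filter (fun p => Nat.log 2 p = j), Real.log p / p ≤
      4 * c / Real.log x := by
    intro j hj
    obtain ⟨p0, hp0, hp0j⟩ := Finset.mem_image.1 hj
    have hp0' := hF p0 hp0
    have hp0ne : p0 ≠ 0 := by
      rintro rfl
      have := hp0'.1
      simp at this; linarith
    set y : ℝ := (2:ℝ) ^ (j + 1) with hy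
    have hy0 : 0 < y := by positivity
    have hzy : z ≤ y := by
      have h1 : p0 < 2 ^ (j + 1) := by
        rw [← hp0j]; exact Nat.lt_pow_succ_log_self (by norm_num) p0
      have h2 : (p0 : ℝ) ≤ y := by rw [hy]; exact_mod_cast h1.le
      linarith
    have hlogy : Real.log x / 2 ≤ Real.log y := by
      have h1 : Real.log (x ^ (1 / 2 : ℝ)) ≤ Real.log y :=
        Real.log_le_log (Real.rpow_pos_of_pos hx0 _) (hz.trans hzy)
      rw [Real.log_rpow hx0] at h1
      linarith
    have hly : 0 < Real.log y := by linarith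
    have hcard : ((F.filter (fun p => Nat.log 2 p = j)).card : ℝ) ≤ c * y / Real.log y ^ 2 := by
      refine le_trans ?_ (hcount y hzy)
      have : F.filter (fun p => Nat.log 2 p = j) ⊆ F.filter (fun p : ℕ => (p : ℝ) ≤ y) := by
        intro p hp
        obtain ⟨hpF, hpj⟩ := Finset.mem_filter.1 hp
        refine Finset.mem_filter.2 ⟨hpF, ?_⟩
        have h1 : p < 2 ^ (j + 1) := by
          rw [← hpj]; exact Nat.lt_pow_succ_log_self (by norm_num) p
        rw [hy]; exact_mod_cast h1.le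
      exact_mod_cast Finset.card_le_card this
    calc ∑ p ∈ F.filter (fun p => Nat.log 2 p = j), Real.log p / p
        ≤ ∑ p ∈ F.filter (fun p => Nat.log 2 p = j), Real.log y / (y / 2) := by
          apply Finset.sum_le_sum
          intro p hp
          obtain ⟨hpF, hpj⟩ := Finset.mem_filter.1 hp
          have hpne : p ≠ 0 := by
            rintro rfl
            have := (hF 0 hpF).1
            simp at this; linarith
          have h1 : p < 2 ^ (j + 1) := by
            rw [← hpj]; exact Nat.lt_pow_succ_log_self (by norm_num) p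
          have h2 : 2 ^ j ≤ p := by rw [← hpj]; exact Nat.pow_log_le_self 2 hpne
          have h1' : (p : ℝ) ≤ y := by rw [hy]; exact_mod_cast h1.le
          have h2' : y / 2 ≤ p := by
            have : y / 2 = (2:ℝ) ^ j := by rw [hy, pow_succ]; ring
            rw [this]; exact_mod_cast h2
          have hp0 : (0:ℝ) < p := by exact_mod_cast Nat.pos_of_ne_zero hpne
          exact div_le_div₀ hly.le (Real.log_le_log hp0 h1') (by positivity) h2'
      _ = ((F.filter (fun p => Nat.log 2 p = j)).card : ℝ) * (Real.log y / (y / 2)) := by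
          rw [Finset.sum_const, nsmul_eq_mul]
      _ ≤ (c * y / Real.log y ^ 2) * (Real.log y / (y / 2)) :=
          mul_le_mul_of_nonneg_right hcard (by positivity)
      _ = 2 * c / Real.log y := by
          field_simp
      _ ≤ 2 * c / (Real.log x / 2) := by
          apply div_le_div_of_nonneg_left (by positivity) (by positivity) hlogy
      _ = 4 * c / Real.log x := by field_simp; ring
  -- number of blocks
  have hJcard : (J.card : ℝ) ≤ 2 * Real.log x / Real.log 2 := by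
    have h1 : J ⊆ Finset.range (Nat.log 2 ⌊x⌋₊ + 1) := by
      intro j hj
      obtain ⟨p, hp, rfl⟩ := Finset.mem_image.1 hj
      rw [Finset.mem_range, Nat.lt_succ_iff]
      apply Nat.log_mono_right
      exact Nat.le_floor (hF p hp).2
    have h2 : J.card ≤ Nat.log 2 ⌊x⌋₊ + 1 := by
      simpa using Finset.card_le_card h1
    have h3 : ((Nat.log 2 ⌊x⌋₊ : ℕ) : ℝ) * Real.log 2 ≤ Real.log x := by
      have hfl : ⌊x⌋₊ ≠ 0 := by
        have : 4 ≤ ⌊x⌋₊ := Nat.le_floor (by exact_mod_cast hx)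
        omega
      have h4 := Nat.pow_log_le_self 2 hfl
      have h5 : ((2:ℝ)) ^ (Nat.log 2 ⌊x⌋₊) ≤ x := by
        calc ((2:ℝ)) ^ (Nat.log 2 ⌊x⌋₊) = ((2 ^ Nat.log 2 ⌊x⌋₊ : ℕ) : ℝ) := by push_cast; rfl
          _ ≤ (⌊x⌋₊ : ℝ) := by exact_mod_cast h4
          _ ≤ x := Nat.floor_le hx0.le
      have h6 := Real.log_le_log (by positivity) h5
      rwa [Real.log_pow] at h6
    have h7 : Real.log 2 ≤ Real.log x := Real.log_le_log (by norm_num) (by linarith)
    rw [le_div_iff₀ hl2]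
    have h8 : (J.card : ℝ) ≤ (Nat.log 2 ⌊x⌋₊ : ℕ) + 1 := by exact_mod_cast h2
    nlinarith
  rw [hfib]
  calc ∑ j ∈ J, ∑ p ∈ F.filter (fun p => Nat.log 2 p = j), Real.log p / p
      ≤ ∑ j ∈ J, 4 * c / Real.log x := Finset.sum_le_sum hblock
    _ = J.card * (4 * c / Real.log x) := by rw [Finset.sum_const, nsmul_eq_mul]
    _ ≤ (2 * Real.log x / Real.log 2) * (4 * c / Real.log x) :=
        mul_le_mul_of_nonneg_right hJcard (by positivity)
    _ = 8 * c / Real.log 2 := by field_simp; ring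
    _ ≤ 16 * c := by
        rw [div_le_iff₀ hl2]
        have : (1:ℝ) / 2 ≤ Real.log 2 := by linarith [Real.log_two_gt_d9]
        nlinarith

/-- the constant of the family `A` -/
theorem mass_aux {a c : ℝ} (ha : 0 ≤ a) (hc : 0 < c) :
    a * (16 * (c / (32 * (a + 1)))) ≤ c / 2 := by
  have h1 : 0 < a + 1 := by linarith
  have h9 : a * (16 * (c / (32 * (a + 1)))) = (a / (a + 1)) * (c / 2) := by
    field_simp; ring
  rw [h9]
  have h10 : a / (a + 1) ≤ 1 := by
    rw [div_le_one h1]; linarith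
  nlinarith

theorem main2_of (hS : Special) (hR : RankLemma) (hP : Pattern) : Main2 := by
  obtain ⟨α, hα0, hα1, hsp⟩ := hS
  set h : ℕ := ⌊1 / α⌋₊ + 1 with hh
  set k : ℕ := (⌊1 / α⌋₊ + 1) * h with hk
  have hhpos : 0 < h := by omega
  refine ⟨k, by positivity, ?_⟩
  intro T X hT b hb hind
  by_contra hcon
  push Not at hcon
  set A : Finset ℕ := (Finset.range (X + 1)).filter (odd T) with hA
  have hAmem : ∀ a, a ∈ A ↔ a ≤ X ∧ odd T a := by
    intro a
    rw [hA, Finset.mem_filter, Finset.mem_range, Nat.lt_succ_iff]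
  have hhα : 1 / (h : ℝ) ≤ α := by
    have h1 : 1 / α < h := by
      rw [hh]; push_cast; exact Nat.lt_floor_add_one _
    have h2 : (0:ℝ) < h := by exact_mod_cast hhpos
    rw [div_lt_iff₀ hα0] at h1
    rw [div_le_iff₀ h2]
    linarith
  have hα2 : 0 < α ^ 2 := by positivity
  set τ : ℝ := α ^ 2 / 2 with hτ
  have hτ0 : 0 < τ := by rw [hτ]; positivity
  have hτ1 : τ ≤ 1 / 8 := by rw [hτ]; nlinarith
  obtain ⟨g, hg, hgne, hg1, hg0⟩ := exists_wt hτ0 (by linarith)
  obtain ⟨v, u, hv, hcop, hu8, h8v, hru, hpat⟩ := hP (T.filter (fun q => q ≤ X)) X (by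
    intro q hq
    obtain ⟨h1, h2⟩ := Finset.mem_filter.1 hq
    exact ⟨(hT q h1).1, (hT q h1).2, h2⟩)
  obtain ⟨c, X0, hc, hX0, hmass⟩ := hsp v u hv hcop hu8 h8v hru g hg hgne
  have hkpos : 0 < k := by positivity
  have hX2 : 2 ≤ X := (hb ⟨0, hkpos⟩).1.trans (hb ⟨0, hkpos⟩).2.1
  set c' : ℝ := c / (32 * (A.card + 1)) with hc'
  have hc'0 : 0 < c' := by rw [hc']; positivity
  obtain ⟨y0, hfew⟩ := not_dense_uniform A (fun a ha =>
    hcon a ((hAmem a).1 ha).1 ((hAmem a).1 ha).2) c' hc'0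
  -- constants of the rank lemma
  have hrank : ∀ J : Fin h ↪ Fin k, ∃ C : ℝ, 0 < C ∧ ∀ y : ℝ, 1 ≤ y → ∀ S : Finset ℕ,
      (∀ p ∈ S, p.Prime ∧ (∀ i, ¬ p ∣ b (J i)) ∧ ∃ m : ℕ, 0 < m ∧ (m : ℝ) ≤ y ∧
        ∀ i, ((b (J i) : ℕ) : ZMod p) ^ m = 1) → (S.card : ℝ) ≤ C * y ^ (1 + 1 / (h : ℝ)) :=
    fun J => hR h (fun i => b (J i)) hhpos (fun i => (hb (J i)).1) (indep_sub hind J)
  choose CJ hCJ0 hCJ using hrank
  set C : ℝ := ∑ J : Fin h ↪ Fin k, CJ J with hC
  have hC0 : 0 ≤ C := Finset.sum_nonneg fun J _ => (hCJ0 J).le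
  -- the key inequality
  have key : ∀ x : ℝ, X0 ≤ x → 4 ≤ x → (X : ℝ) < x ^ (1 - τ) → y0 ≤ x ^ (1 - τ) →
      c / 2 ≤ C * (Real.log x * x ^ (-τ)) := by
    intro x hx0 hx4 hxX hxy
    have hx1 : 1 < x := by linarith
    have hxpos : 0 < x := by linarith
    have hlog : 0 < Real.log x := Real.log_pos hx1
    set E : Finset ℕ := (Finset.range (⌊x⌋₊ + 1)).filter (fun p => p.Prime ∧ p ≡ u [MOD v] ∧
      ∀ r : ℕ, r.Prime → r ∣ p - 1 → r = 2 ∨ x ^ α < (r : ℝ)) with hE
    have hEmem : ∀ p : ℕ, p ∈ E ↔ (p.Prime ∧ (p : ℝ) ≤ x ∧ p ≡ u [MOD v] ∧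
        ∀ r : ℕ, r.Prime → r ∣ p - 1 → r = 2 ∨ x ^ α < (r : ℝ)) := by
      intro p
      rw [hE, Finset.mem_filter, Finset.mem_range, Nat.lt_succ_iff, Nat.le_floor_iff hxpos.le]
      tauto
    have h1 := hmass x hx0 E hEmem
    set E' : Finset ℕ := E.filter (fun p => x ^ (1 - τ) < (p : ℝ)) with hE'
    have hE'mem : ∀ p ∈ E', p.Prime ∧ (p : ℝ) ≤ x ∧ x ^ (1 - τ) < (p : ℝ) ∧ p ≡ u [MOD v] ∧
        ∀ r : ℕ, r.Prime → r ∣ p - 1 → r = 2 ∨ x ^ α < (r : ℝ) := by
      intro p hp
      obtain ⟨hpE, hpx⟩ := Finset.mem_filter.1 hp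
      obtain ⟨a1, a2, a3, a4⟩ := (hEmem p).1 hpE
      exact ⟨a1, a2, hpx, a3, a4⟩
    -- only `E'` matters
    have h3 : ∑ p ∈ E, Real.log p * wt g x p = ∑ p ∈ E', Real.log p * wt g x p := by
      symm
      apply Finset.sum_subset (Finset.filter_subset _ _)
      intro p hpE hpE'
      have hple : (p : ℝ) ≤ x ^ (1 - τ) := by
        by_contra hlt
        exact hpE' (Finset.mem_filter.2 ⟨hpE, not_le.1 hlt⟩)
      have hp := ((hEmem p).1 hpE).1
      have hp0 : (0 : ℝ) < p := by exact_mod_cast hp.pos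
      have hlp : Real.log p ≤ (1 - τ) * Real.log x := by
        rw [← Real.log_rpow hxpos]
        exact Real.log_le_log hp0 hple
      have : g (Real.log p / Real.log x) = 0 := by
        apply hg0
        rw [div_le_iff₀ hlog]
        exact hlp
      rw [wt, this]; simp
    -- covering
    set B : (Fin h ↪ Fin k) → Finset ℕ := fun J => E'.filter (fun p =>
          ∃ m : ℕ, 0 < m ∧ (m : ℝ) ≤ x ^ (1 - α) ∧ ∀ i, ((b (J i) : ℕ) : ZMod p) ^ m = 1) with hB
    set F : ℕ → Finset ℕ := fun a => E'.filter (fun p => LeastRoot a p) with hF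
    have hcov : E' ⊆ (A.biUnion F) ∪ (Finset.univ : Finset (Fin h ↪ Fin k)).biUnion B := by
      intro p hp
      obtain ⟨hpp, hple, hpx, hpu, hpr⟩ := hE'mem p hp
      have hXp : X < p := by exact_mod_cast hxX.trans hpx
      have hsq : ∀ n : ℕ, 1 ≤ n → n ≤ X → (IsSquare ((n : ℕ) : ZMod p) ↔ ¬ odd T n) := by
        intro n hn1 hn2
        rw [hpat p hpp hpu hXp n hn1 hn2, odd_filter T hn2]
      rcases cover hα0 hx1 hk hhpos hb hpp hple hXp hsq hpr with ⟨a, ha1, ha2, ha3⟩ | ⟨J, hJ⟩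
      · apply Finset.mem_union_left
        rw [Finset.mem_biUnion]
        exact ⟨a, (hAmem a).2 ⟨ha1, ha2⟩, Finset.mem_filter.2 ⟨hp, ha3⟩⟩
      · apply Finset.mem_union_right
        rw [Finset.mem_biUnion]
        exact ⟨J, Finset.mem_univ _, Finset.mem_filter.2 ⟨hp, hJ⟩⟩
    have hnn : ∀ p : ℕ, 0 ≤ Real.log p * wt g x p := by
      intro p
      rcases Nat.eq_zero_or_pos p with rfl | hp
      · simp
      · exact mul_nonneg (Real.log_nonneg (by exact_mod_cast hp))
          (div_nonneg (hg.nonneg _) (Nat.cast_nonneg _))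
    have hsplit : ∑ p ∈ E', Real.log p * wt g x p ≤
        ∑ a ∈ A, ∑ p ∈ F a, Real.log p * wt g x p +
          ∑ J : Fin h ↪ Fin k, ∑ p ∈ B J, Real.log p * wt g x p := by
      calc ∑ p ∈ E', Real.log p * wt g x p
          ≤ ∑ p ∈ (A.biUnion F) ∪ (Finset.univ : Finset (Fin h ↪ Fin k)).biUnion B,
              Real.log p * wt g x p :=
            Finset.sum_le_sum_of_subset_of_nonneg hcov (fun p _ _ => hnn p)
        _ ≤ ∑ p ∈ A.biUnion F, Real.log p * wt g x p +
            ∑ p ∈ (Finset.univ : Finset (Fin h ↪ Fin k)).biUnion B, Real.log p * wt g x p := by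
            rw [← Finset.sum_union_inter]
            have : 0 ≤ ∑ p ∈ (A.biUnion F) ∩ (Finset.univ : Finset (Fin h ↪ Fin k)).biUnion B,
              Real.log p * wt g x p := Finset.sum_nonneg fun p _ => hnn p
            linarith
        _ ≤ _ := add_le_add
            (sum_biUnion_le' _ _ _ hnn) (sum_biUnion_le' _ _ _ hnn)
    -- contribution of the least primitive roots
    have hFa : ∀ a ∈ A, ∑ p ∈ F a, Real.log p * wt g x p ≤ 16 * c' := by
      intro a ha
      have hterm : ∀ p ∈ F a, Real.log p * wt g x p ≤ Real.log p / p := by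
        intro p hp
        have hpp := (hE'mem p (Finset.mem_filter.1 hp).1).1
        have hp0 : (0 : ℝ) < p := by exact_mod_cast hpp.pos
        have hlp0 : 0 ≤ Real.log p := Real.log_nonneg (by exact_mod_cast hpp.one_le)
        rw [div_eq_mul_one_div]
        apply mul_le_mul_of_nonneg_left _ hlp0
        exact div_le_div_of_nonneg_right (hg1 _) hp0.le
      refine (Finset.sum_le_sum hterm).trans ?_
      apply dyadic hc'0.le hx4 (z := x ^ (1 - τ))
      · exact Real.rpow_le_rpow_of_exponent_le hx1.le (by linarith)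
      · intro p hp
        obtain ⟨_, a2, a3, _⟩ := hE'mem p (Finset.mem_filter.1 hp).1
        exact ⟨a3.le, a2⟩
      · intro y hy
        refine le_trans ?_ (hfew a ha y (hxy.trans hy)).le
        have hy0 : 0 ≤ y := (Real.rpow_nonneg hxpos.le _).trans hy
        have : (F a).filter (fun p : ℕ => (p : ℝ) ≤ y) ⊆
            (range (⌊y⌋₊ + 1)).filter (LeastRoot a) := by
          intro p hp
          obtain ⟨hp1, hp2⟩ := Finset.mem_filter.1 hp
          rw [Finset.mem_filter, Finset.mem_range, Nat.lt_succ_iff, Nat.le_floor_iff hy0]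
          exact ⟨hp2, (Finset.mem_filter.1 hp1).2⟩
        exact_mod_cast Finset.card_le_card this
    -- contribution of the bad primes
    have hxα : 1 ≤ x ^ (1 - α) := Real.one_le_rpow hx1.le (by linarith)
    have hexp : (x ^ (1 - α)) ^ (1 + 1 / (h : ℝ)) ≤ x ^ (1 - α ^ 2) := by
      rw [← Real.rpow_mul hxpos.le]
      apply Real.rpow_le_rpow_of_exponent_le hx1.le
      have : (1 - α) * (1 + 1 / (h : ℝ)) ≤ (1 - α) * (1 + α) :=
        mul_le_mul_of_nonneg_left (by linarith) (by linarith)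
      nlinarith
    have hBJ : ∀ J : Fin h ↪ Fin k, ∑ p ∈ B J, Real.log p * wt g x p ≤
        CJ J * (Real.log x * x ^ (-τ)) := by
      intro J
      have hcard : ((B J).card : ℝ) ≤ CJ J * x ^ (1 - α ^ 2) := by
        refine (hCJ J (x ^ (1 - α)) hxα _ ?_).trans
          (mul_le_mul_of_nonneg_left hexp (hCJ0 J).le)
        intro p hp
        obtain ⟨hpE', hpm⟩ := Finset.mem_filter.1 hp
        obtain ⟨hpp, _, hpx, _, _⟩ := hE'mem p hpE'
        have hXp : X < p := by exact_mod_cast hxX.trans hpx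
        refine ⟨hpp, fun i hd => ?_, hpm⟩
        have := Nat.le_of_dvd (by have := (hb (J i)).1; omega) hd
        have := (hb (J i)).2.1
        omega
      calc ∑ p ∈ B J, Real.log p * wt g x p ≤ ∑ p ∈ B J, Real.log x * x ^ (τ - 1) := by
            apply Finset.sum_le_sum
            intro p hp
            obtain ⟨hpp, hple, hpx, _, _⟩ := hE'mem p (Finset.mem_filter.1 hp).1
            have hp0 : (0 : ℝ) < p := by exact_mod_cast hpp.pos
            have hlp : Real.log p ≤ Real.log x := Real.log_le_log hp0 hple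
            have hxt : 0 < x ^ (1 - τ) := Real.rpow_pos_of_pos hxpos _
            have hw : wt g x p ≤ x ^ (τ - 1) := by
              unfold wt
              calc g (Real.log p / Real.log x) / p ≤ 1 / x ^ (1 - τ) :=
                    div_le_div₀ zero_le_one (hg1 _) hxt hpx.le
                _ = x ^ (τ - 1) := by
                    rw [one_div, ← Real.rpow_neg hxpos.le]; congr 1; ring
            have hw0 : 0 ≤ wt g x p := div_nonneg (hg.nonneg _) hp0.le
            exact mul_le_mul hlp hw hw0 hlog.le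
        _ = ((B J).card : ℝ) * (Real.log x * x ^ (τ - 1)) := by
            rw [Finset.sum_const, nsmul_eq_mul]
        _ ≤ (CJ J * x ^ (1 - α ^ 2)) * (Real.log x * x ^ (τ - 1)) :=
            mul_le_mul_of_nonneg_right hcard (by positivity)
        _ = CJ J * (Real.log x * (x ^ (1 - α ^ 2) * x ^ (τ - 1))) := by ring
        _ = CJ J * (Real.log x * x ^ (-τ)) := by
            rw [← Real.rpow_add hxpos]
            congr 3
            rw [hτ]; ring
    have hfin : c ≤ A.card * (16 * c') + C * (Real.log x * x ^ (-τ)) := by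
      calc c ≤ ∑ p ∈ E, Real.log p * wt g x p := h1
        _ = ∑ p ∈ E', Real.log p * wt g x p := h3
        _ ≤ _ := hsplit
        _ ≤ ∑ a ∈ A, 16 * c' + ∑ J : Fin h ↪ Fin k, CJ J * (Real.log x * x ^ (-τ)) :=
            add_le_add (Finset.sum_le_sum hFa) (Finset.sum_le_sum fun J _ => hBJ J)
        _ = A.card * (16 * c') + C * (Real.log x * x ^ (-τ)) := by
            rw [Finset.sum_const, nsmul_eq_mul, ← Finset.sum_mul]
    have hAc : (A.card : ℝ) * (16 * c') ≤ c / 2 := by
      rw [hc']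
      exact mass_aux (Nat.cast_nonneg _) hc
    linarith
  -- the limit
  have hlim : Tendsto (fun x : ℝ => C * (Real.log x * x ^ (-τ))) atTop (𝓝 0) := by
    have h1 : Tendsto (fun x : ℝ => Real.log x / x ^ τ) atTop (𝓝 0) :=
      (isLittleO_log_rpow_atTop hτ0).tendsto_div_nhds_zero
    have h2 : Tendsto (fun x : ℝ => C * (Real.log x / x ^ τ)) atTop (𝓝 0) := by
      simpa using h1.const_mul C
    refine h2.congr' ?_
    filter_upwards [eventually_gt_atTop (0:ℝ)] with x hx
    rw [Real.rpow_neg hx.le, div_eq_mul_inv]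
  have hev : ∀ᶠ x : ℝ in atTop, (X : ℝ) < x ^ (1 - τ) :=
    (tendsto_rpow_atTop (by linarith : 0 < 1 - τ)).eventually_gt_atTop _
  have hev' : ∀ᶠ x : ℝ in atTop, y0 ≤ x ^ (1 - τ) :=
    (tendsto_rpow_atTop (by linarith : 0 < 1 - τ)).eventually_ge_atTop _
  obtain ⟨x, hx1, hx2, hx3, hx4, hx5⟩ := ((hlim.eventually (gt_mem_nhds (half_pos hc))).and
    (hev.and (hev'.and ((eventually_ge_atTop X0).and (eventually_ge_atTop 4))))).exists
  exact absurd (key x hx4 hx5 hx2 hx3) (not_le.2 hx1)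

end Pool.Agent.Helper18.BV
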